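import Pool.Agent.Q86.PA.Stm

/-!
The all-or-nothing lemma by pivoting.
-/

set_option autoImplicit false

namespace Q86.PA

open Finset Module

theorem exists_weights {d m : ℕ} {q : E d} {x : Fin m → E d} (h : InHull q x) :
    ∃ w : Fin m → ℝ, (∀ k, 0 ≤ w k) ∧ ∑ k, w k = 1 ∧ ∑ k, w k • x k = q := by
  classical
  have hsub : convexHull ℝ (Set.range x) ⊆ {y | ∃ w : Fin m → ℝ, (∀ k, 0 ≤ w k) ∧ ∑ k, w k = 1 ∧
      ∑ k, w k • x k = y} := by
    apply convexHull_min
    · rintro _ ⟨k, rfl⟩
      refine ⟨fun k' => if k' = k then 1 else 0, fun k' => ?_, ?_, ?_⟩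
      · dsimp only
        split_ifs <;> norm_num
      · simp
      · simp
    · rintro y1 ⟨w1, h1, h1', rfl⟩ y2 ⟨w2, h2, h2', rfl⟩ a b ha hb hab
      refine ⟨fun k => a * w1 k + b * w2 k, fun k => ?_, ?_, ?_⟩
      · have := h1 k
        have := h2 k
        positivity
      · rw [Finset.sum_add_distrib, ← Finset.mul_sum, ← Finset.mul_sum, h1', h2']
        linarith
      · rw [Finset.smul_sum, Finset.smul_sum, ← Finset.sum_add_distrib]
        refine Finset.sum_congr rfl fun k _ => ?_
        rw [add_smul, mul_smul, mul_smul]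
  exact hsub h

theorem pivot {d : ℕ} {q : E d} {A : Fin (d + 1) → Finset (E d)}
    (hA : ∀ j, q ∉ convexHull ℝ (⋃ i, ⋃ (_ : i ≠ j), (A i : Set (E d))))
    {x : Fin (d + 1) → E d} (hx : ∀ i, x i ∈ A i) (hq : InHull q x) (i : Fin (d + 1)) {b : E d}
    (hb : b ∈ A i) : InHull q (Function.update x i b) := by
  classical
  have hfin : finrank ℝ (E d) = d := by simp [E]
  obtain ⟨lam, hlam, hlam1, hlamq⟩ := exists_weights hq
  -- the affine dependence
  obtain ⟨a, β, hβ, hsum, hvec, hne⟩ : ∃ (a : Fin (d + 1) → ℝ) (β : ℝ), 0 ≤ β ∧ ∑ k, a k + β = 0 ∧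
      ∑ k, a k • x k + β • b = 0 ∧ (β ≠ 0 ∨ ∃ k, a k ≠ 0) := by
    let v : Option (Fin (d + 1)) → E d × ℝ := fun o => o.elim (b, 1) (fun k => (x k, 1))
    have hnl : ¬ LinearIndependent ℝ v := by
      intro hl
      have := hl.fintype_card_le_finrank
      rw [Fintype.card_option, Fintype.card_fin, finrank_prod, hfin, finrank_self] at this
      omega
    obtain ⟨g, hg, o, ho⟩ := Fintype.not_linearIndependent_iff.1 hnl
    rw [Fintype.sum_option] at hg
    have h1 := congrArg Prod.fst hg
    have h2 := congrArg Prod.snd hg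
    simp only [v, Option.elim, Prod.fst_add, Prod.snd_add, Prod.smul_fst, Prod.smul_snd,
      Prod.fst_sum, Prod.snd_sum, smul_eq_mul, mul_one, Prod.fst_zero, Prod.snd_zero] at h1 h2
    have hne : g none ≠ 0 ∨ ∃ k, g (some k) ≠ 0 := by
      cases o with
      | none => exact Or.inl ho
      | some k => exact Or.inr ⟨k, ho⟩
    rcases le_total 0 (g none) with h0 | h0
    · refine ⟨fun k => g (some k), g none, h0, by linarith, ?_, hne⟩
      rw [add_comm]
      exact h1
    · refine ⟨fun k => - g (some k), - g none, by linarith, ?_, ?_, ?_⟩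
      · rw [Finset.sum_neg_distrib]
        linarith
      · simp only [neg_smul, Finset.sum_neg_distrib]
        rw [← neg_add, add_comm, h1, neg_zero]
      · rcases hne with h | ⟨k, h⟩
        · exact Or.inl (neg_ne_zero.2 h)
        · exact Or.inr ⟨k, neg_ne_zero.2 h⟩
  have hneg : ∃ k, a k < 0 := by
    by_contra hno
    push Not at hno
    have h1 : 0 ≤ ∑ k, a k := Finset.sum_nonneg fun k _ => hno k
    have h2 : β = 0 := by linarith
    have h3 : ∑ k, a k = 0 := by linarith
    have h4 := (Finset.sum_eq_zero_iff_of_nonneg fun k _ => hno k).1 h3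
    rcases hne with h | ⟨k, h⟩
    · exact h h2
    · exact h (h4 k (Finset.mem_univ k))
  obtain ⟨j, hj, hjmin⟩ := Finset.exists_min_image (univ.filter fun k => a k < 0)
    (fun k => lam k / (- a k)) (by
      obtain ⟨k, hk⟩ := hneg
      exact ⟨k, Finset.mem_filter.2 ⟨Finset.mem_univ _, hk⟩⟩)
  have haj : a j < 0 := (Finset.mem_filter.1 hj).2
  set θ := lam j / (- a j) with hθ
  have hθ0 : 0 ≤ θ := div_nonneg (hlam j) (by linarith)
  have hwj : lam j + θ * a j = 0 := by
    have haj' : a j ≠ 0 := haj.ne
    rw [hθ, div_neg, neg_mul, div_mul_cancel₀ _ haj']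
    ring
  have hw : ∀ k, 0 ≤ lam k + θ * a k := by
    intro k
    rcases lt_or_ge (a k) 0 with hk | hk
    · have h1 := hjmin k (Finset.mem_filter.2 ⟨Finset.mem_univ _, hk⟩)
      have h2 : θ ≤ lam k / (- a k) := h1
      rw [le_div_iff₀ (by linarith)] at h2
      linarith
    · have := hlam k
      positivity
  have hq2 : q = (θ * β) • b + ∑ k, (lam k + θ * a k) • x k := by
    have h1 : ∑ k, (lam k + θ * a k) • x k = q + θ • ∑ k, a k • x k := by
      rw [← hlamq, Finset.smul_sum, ← Finset.sum_add_distrib]
      refine Finset.sum_congr rfl fun k _ => ?_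
      rw [add_smul, mul_smul]
    rw [h1, mul_smul]
    have h2 : θ • (β • b) + (q + θ • ∑ k, a k • x k) = q + θ • (∑ k, a k • x k + β • b) := by
      rw [smul_add]
      abel
    rw [h2, hvec, smul_zero, add_zero]
  have hw1 : θ * β + ∑ k, (lam k + θ * a k) = 1 := by
    rw [Finset.sum_add_distrib, hlam1, ← Finset.mul_sum]
    have : ∑ k, a k = - β := by linarith
    rw [this]
    ring
  -- general membership
  have hmem : ∀ (S : Set (E d)) (P : Fin (d + 1) → E d), b ∈ S → (∀ k, P k ∈ S) →
      (∀ k, lam k + θ * a k ≠ 0 → P k = x k) → q ∈ convexHull ℝ S := by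
    intro S P hbS hPS hP
    have h1 : q = ∑ o : Option (Fin (d + 1)),
        (o.elim (θ * β) fun k => lam k + θ * a k) • (o.elim b P) := by
      rw [Fintype.sum_option]
      simp only [Option.elim]
      rw [hq2]
      congr 1
      refine Finset.sum_congr rfl fun k _ => ?_
      by_cases h0 : lam k + θ * a k = 0
      · rw [h0, zero_smul, zero_smul]
      · rw [hP k h0]
    rw [h1]
    apply (convex_convexHull ℝ _).sum_mem
    · rintro (_ | k) _
      · exact mul_nonneg hθ0 hβ
      · exact hw k
    · rw [Fintype.sum_option]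
      exact hw1
    · rintro (_ | k) _
      · exact subset_convexHull ℝ _ hbS
      · exact subset_convexHull ℝ _ (hPS k)
  by_cases hji : j = i
  · subst hji
    refine hmem _ (Function.update x j b) ⟨j, Function.update_self j b x⟩ (fun k => ⟨k, rfl⟩) ?_
    intro k hk
    have hkj : k ≠ j := by
      rintro rfl
      exact hk hwj
    exact Function.update_of_ne hkj b x
  · exfalso
    refine hA j (hmem _ (Function.update x j b) ?_ (fun k => ?_) ?_)
    · simp only [Set.mem_iUnion]
      exact ⟨i, Ne.symm hji, hb⟩
    · simp only [Set.mem_iUnion]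
      by_cases hkj : k = j
      · subst hkj
        rw [Function.update_self]
        exact ⟨i, Ne.symm hji, hb⟩
      · rw [Function.update_of_ne hkj]
        exact ⟨k, hkj, hx k⟩
    · intro k hk
      have hkj : k ≠ j := by
        rintro rfl
        exact hk hwj
      exact Function.update_of_ne hkj b x

theorem an : S_AN := by
  classical
  intro d q A hA
  by_contra hcon
  push Not at hcon
  obtain ⟨⟨y, hy, hyq⟩, ⟨x, hx, hxq⟩⟩ := hcon
  have key : ∀ s : Finset (Fin (d + 1)), InHull q (fun i => if i ∈ s then y i else x i) := by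
    intro s
    induction s using Finset.induction_on with
    | empty => simpa using hxq
    | insert a s ha ih =>
      have h1 := pivot hA (x := fun i => if i ∈ s then y i else x i) (fun i => by
        split_ifs
        · exact hy i
        · exact hx i) ih a (hy a)
      have h2 : Function.update (fun i => if i ∈ s then y i else x i) a (y a) =
          fun i => if i ∈ insert a s then y i else x i := by
        funext i
        by_cases hi : i = a
        · subst hi
          rw [Function.update_self]
          simp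
        · rw [Function.update_of_ne hi]
          simp [Finset.mem_insert, hi]
      rwa [h2] at h1
  have h3 := key univ
  simp only [Finset.mem_univ, if_true] at h3
  exact hyq h3

end Q86.PA
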