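import Pool.Agent.Q86.PA.Stm

/-!
Large parts of `d + 1` classes such that a given point avoids the hull of any `d` of them; the
all-or-nothing lemma.
-/

set_option autoImplicit false

namespace Q86.PA

open Finset

theorem av (h : S_SEP) : S_AV := by
  classical
  intro d hd
  have key : ∀ J : Finset (Fin (d + 1)), ∃ (κ : ℝ) (n₁ : ℕ), 0 < κ ∧ ∀ U : Set (E d), GP U →
      ∀ (q : E d) (A : Fin (d + 1) → Finset (E d)), (∀ i, n₁ ≤ (A i).card) →
      (∀ i, ∀ x ∈ A i, x ∈ U) →
      ∃ A' : Fin (d + 1) → Finset (E d), (∀ i, A' i ⊆ A i) ∧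
        (∀ i, κ * ((A i).card : ℝ) ≤ ((A' i).card : ℝ)) ∧
        ∀ j ∈ J, q ∉ convexHull ℝ (⋃ i, ⋃ (_ : i ≠ j), (A' i : Set (E d))) := by
    intro J
    induction J using Finset.induction_on with
    | empty =>
      exact ⟨1, 0, one_pos, fun U _ q A _ _ => ⟨A, fun _ => Finset.Subset.refl _,
        fun i => by rw [one_mul], fun j hj => absurd hj (Finset.notMem_empty j)⟩⟩
    | insert j J hj ih =>
      obtain ⟨κ, n, hκ, ih⟩ := ih
      obtain ⟨n', hn'⟩ := exists_nat_gt ((2 * d * (d + 1) + 1) / κ)
      refine ⟨min (κ / (2 * (d + 1))) κ, max n n', by positivity, ?_⟩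
      intro U hU q A hA hAU
      obtain ⟨A1, hA1, hA1c, hA1q⟩ := ih U hU q A (fun i => (le_max_left _ _).trans (hA i)) hAU
      have hbig : ∀ i, (2 * d * (d + 1) + 1 : ℝ) ≤ (A1 i).card := by
        intro i
        have h1 : (n' : ℝ) ≤ (A i).card := by exact_mod_cast (le_max_right _ _).trans (hA i)
        have h2 : (2 * d * (d + 1) + 1 : ℝ) < n' * κ := by
          rwa [div_lt_iff₀ hκ] at hn'
        have h3 := hA1c i
        nlinarith
      have hne : ∀ i, (A1 i).Nonempty := by
        intro i
        rw [← Finset.card_pos]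
        have h1 := hbig i
        have h2 : (0 : ℝ) < (A1 i).card := lt_of_lt_of_le (by positivity) h1
        exact_mod_cast h2
      obtain ⟨f, A'', hA''1, hA''2, hA''3⟩ := h d U hd hU q (fun k => A1 (j.succAbove k))
        (fun k => hne _) (fun k x hx => hAU _ x (hA1 _ hx))
      let A2 : Fin (d + 1) → Finset (E d) := j.insertNth (α := fun _ => Finset (E d)) (A1 j) A''
      have hj2 : A2 j = A1 j := Fin.insertNth_apply_same (α := fun _ => Finset (E d)) j (A1 j) A''
      have hs2 : ∀ k, A2 (j.succAbove k) = A'' k :=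
        fun k => Fin.insertNth_apply_succAbove (α := fun _ => Finset (E d)) j (A1 j) A'' k
      have hsub : ∀ i, A2 i ⊆ A1 i := by
        intro i
        rcases eq_or_ne i j with rfl | hij
        · rw [hj2]
        · obtain ⟨k, rfl⟩ := Fin.exists_succAbove_eq hij
          rw [hs2]
          exact hA''1 k
      refine ⟨A2, fun i => (hsub i).trans (hA1 i), fun i => ?_, fun j' hj' => ?_⟩
      · rcases eq_or_ne i j with rfl | hij
        · rw [hj2]
          refine le_trans ?_ (hA1c i)
          exact mul_le_mul_of_nonneg_right (min_le_right _ _) (Nat.cast_nonneg _)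
        · obtain ⟨k, rfl⟩ := Fin.exists_succAbove_eq hij
          rw [hs2]
          have h1 : ((A1 (j.succAbove k)).card : ℝ) ≤ (d + 1) * ((A'' k).card + d) := by
            exact_mod_cast hA''2 k
          have h2 := hbig (j.succAbove k)
          have h3 := hA1c (j.succAbove k)
          have hd0 : (0 : ℝ) < 2 * (d + 1) := by positivity
          have h4 : κ / (2 * (d + 1)) * ((A (j.succAbove k)).card : ℝ) ≤ ((A'' k).card : ℝ) := by
            rw [div_mul_eq_mul_div, div_le_iff₀ hd0]
            nlinarith
          refine le_trans ?_ h4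
          exact mul_le_mul_of_nonneg_right (min_le_left _ _) (Nat.cast_nonneg _)
      · rcases Finset.mem_insert.1 hj' with rfl | hj'
        · intro hq
          have hsub2 : convexHull ℝ (⋃ i, ⋃ (_ : i ≠ j'), (A2 i : Set (E d))) ⊆
              {x | f q < f x} := by
            apply convexHull_min
            · intro x hx
              simp only [Set.mem_iUnion] at hx
              obtain ⟨i, hi, hx⟩ := hx
              obtain ⟨k, rfl⟩ := Fin.exists_succAbove_eq hi
              rw [hs2] at hx
              exact hA''3 k x hx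
            · exact convex_halfSpace_gt f.isLinear _
          have h5 : f q < f q := hsub2 hq
          exact lt_irrefl _ h5
        · intro hq
          refine hA1q j' hj' (convexHull_mono ?_ hq)
          exact Set.iUnion_mono fun i => Set.iUnion_mono fun _ => Finset.coe_subset.2 (hsub i)
  obtain ⟨κ, n, hκ, hk⟩ := key univ
  refine ⟨κ, n, hκ, fun U hU q A hA hAU => ?_⟩
  obtain ⟨A', h1, h2, h3⟩ := hk U hU q A hA hAU
  exact ⟨A', h1, h2, fun j => h3 j (Finset.mem_univ j)⟩

end Q86.PA
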