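import Pool.Agent.Q86.PA.Stm

/-!
From positive density to a complete box.
-/

set_option autoImplicit false

namespace Q86.PA

open Finset

open Classical in
/-- number of points of the box -/
noncomputable def NN {m : ℕ} {α : Type} (Y : Fin m → Finset α) : ℝ :=
  ((Fintype.piFinset Y).card : ℝ)

open Classical in
/-- number of solutions in the box -/
noncomputable def SS {m : ℕ} {α : Type} (R : (Fin m → α) → Prop) (Y : Fin m → Finset α) : ℝ :=
  (((Fintype.piFinset Y).filter R).card : ℝ)

open Classical in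
/-- the parts of the decomposition of the box `Y` by `Z` -/
noncomputable def BB {m : ℕ} {α : Type} (Y Z : Fin m → Finset α) (T : Finset (Fin m)) :
    Fin m → Finset α := fun i => if i ∈ T then Z i else Y i \ Z i

theorem SS_le_NN {m : ℕ} {α : Type} (R : (Fin m → α) → Prop) (Y : Fin m → Finset α) :
    SS R Y ≤ NN Y := by
  classical
  unfold SS NN
  exact_mod_cast Finset.card_le_card (Finset.filter_subset _ _)

theorem NN_prod {m : ℕ} {α : Type} (Y : Fin m → Finset α) : NN Y = ∏ i, ((Y i).card : ℝ) := by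
  classical
  unfold NN
  rw [Fintype.card_piFinset]
  push_cast
  rfl

theorem BB_fiber {m : ℕ} {α : Type} {Y Z : Fin m → Finset α} (hZ : ∀ i, Z i ⊆ Y i)
    (T : Finset (Fin m)) (x : Fin m → α) :
    (∀ i, x i ∈ BB Y Z T i) ↔ (∀ i, x i ∈ Y i) ∧ (∀ i, x i ∈ Z i ↔ i ∈ T) := by
  classical
  constructor
  · intro h
    refine ⟨fun i => ?_, fun i => ?_⟩
    · have h1 := h i
      unfold BB at h1
      split_ifs at h1
      · exact hZ i h1
      · exact (Finset.mem_sdiff.1 h1).1
    · have h1 := h i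
      unfold BB at h1
      split_ifs at h1 with h2
      · exact ⟨fun _ => h2, fun _ => h1⟩
      · exact ⟨fun h3 => absurd h3 (Finset.mem_sdiff.1 h1).2, fun h3 => absurd h3 h2⟩
  · rintro ⟨h1, h2⟩ i
    unfold BB
    split_ifs with h3
    · exact (h2 i).2 h3
    · exact Finset.mem_sdiff.2 ⟨h1 i, fun h4 => h3 ((h2 i).1 h4)⟩

theorem NN_sum {m : ℕ} {α : Type} {Y Z : Fin m → Finset α} (hZ : ∀ i, Z i ⊆ Y i) :
    NN Y = ∑ T : Finset (Fin m), NN (BB Y Z T) := by
  classical
  unfold NN
  have h1 := Finset.card_eq_sum_card_fiberwise (s := Fintype.piFinset Y)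
    (t := (univ : Finset (Finset (Fin m)))) (f := fun x => univ.filter fun i => x i ∈ Z i)
    (fun x _ => Finset.mem_coe.2 (Finset.mem_univ _))
  rw [h1]
  push_cast
  refine Finset.sum_congr rfl fun T _ => ?_
  congr 2
  ext x
  rw [Finset.mem_filter, Fintype.mem_piFinset, Fintype.mem_piFinset, BB_fiber hZ]
  refine and_congr_right fun _ => ?_
  rw [Finset.ext_iff]
  simp

theorem SS_sum {m : ℕ} {α : Type} (R : (Fin m → α) → Prop) {Y Z : Fin m → Finset α}
    (hZ : ∀ i, Z i ⊆ Y i) : SS R Y = ∑ T : Finset (Fin m), SS R (BB Y Z T) := by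
  classical
  unfold SS
  have h1 := Finset.card_eq_sum_card_fiberwise (s := (Fintype.piFinset Y).filter R)
    (t := (univ : Finset (Finset (Fin m)))) (f := fun x => univ.filter fun i => x i ∈ Z i)
    (fun x _ => Finset.mem_coe.2 (Finset.mem_univ _))
  rw [h1]
  push_cast
  refine Finset.sum_congr rfl fun T _ => ?_
  congr 2
  ext x
  rw [Finset.mem_filter, Finset.mem_filter, Finset.mem_filter, Fintype.mem_piFinset,
    Fintype.mem_piFinset, BB_fiber hZ]
  constructor
  · rintro ⟨⟨h2, h3⟩, h4⟩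
    refine ⟨⟨h2, fun i => ?_⟩, h3⟩
    rw [← h4]
    simp
  · rintro ⟨⟨h2, h4⟩, h3⟩
    refine ⟨⟨h2, h3⟩, ?_⟩
    ext i
    simp [h4 i]

theorem BB_univ {m : ℕ} {α : Type} (Y Z : Fin m → Finset α) : BB Y Z univ = Z := by
  classical
  funext i
  unfold BB
  rw [if_pos (Finset.mem_univ i)]

/-- one step of the density increment -/
theorem box_step {m : ℕ} {α : Type} (R : (Fin m → α) → Prop) {Y Z : Fin m → Finset α}
    (hZ : ∀ i, Z i ⊆ Y i) {κ β : ℝ} (hκ : 0 < κ) (hβ : 0 < β) (hκ1 : κ ≤ 1)
    (hZc : ∀ i, κ * ((Y i).card : ℝ) ≤ ((Z i).card : ℝ))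
    (hR : ∀ x : Fin m → α, (∀ i, x i ∈ Z i) → ¬ R x) (hN : 0 < NN Y) (hS : β * NN Y ≤ SS R Y) :
    ∃ T : Finset (Fin m), β * κ ^ m / 2 ^ (m + 2) * NN Y ≤ NN (BB Y Z T) ∧
      (1 + κ ^ m / 2) * SS R Y * NN (BB Y Z T) ≤ SS R (BB Y Z T) * NN Y := by
  classical
  set k0 := κ ^ m with hk0
  have hk0pos : 0 < k0 := by positivity
  have hk1 : k0 ≤ 1 := pow_le_one₀ hκ.le hκ1
  set τ := β * k0 / 2 ^ (m + 2) with hτ
  have hτpos : 0 < τ := by positivity
  by_contra hcon
  push Not at hcon
  have hNZ : k0 * NN Y ≤ NN Z := by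
    rw [NN_prod, NN_prod, hk0]
    have : κ ^ m = ∏ _i : Fin m, κ := by simp
    rw [this, ← Finset.prod_mul_distrib]
    exact Finset.prod_le_prod (fun i _ => by positivity) fun i _ => hZc i
  have hSZ : SS R Z = 0 := by
    unfold SS
    have : (Fintype.piFinset Z).filter R = ∅ := by
      rw [Finset.filter_eq_empty_iff]
      intro x hx
      exact hR x (Fintype.mem_piFinset.1 hx)
    rw [this]
    simp
  have hsplitN : NN Y = NN Z + ∑ T ∈ univ.erase (univ : Finset (Fin m)), NN (BB Y Z T) := by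
    rw [NN_sum hZ, ← Finset.add_sum_erase _ _ (Finset.mem_univ (univ : Finset (Fin m))), BB_univ]
  have hsplitS : SS R Y = ∑ T ∈ univ.erase (univ : Finset (Fin m)), SS R (BB Y Z T) := by
    rw [SS_sum R hZ, ← Finset.add_sum_erase _ _ (Finset.mem_univ (univ : Finset (Fin m))), BB_univ,
      hSZ, zero_add]
  have hNnn : ∀ T, 0 ≤ NN (BB Y Z T) := fun T => by unfold NN; positivity
  have hSnn : 0 ≤ SS R Y := by unfold SS; positivity
  -- termwise bound
  have hterm : ∀ T ∈ univ.erase (univ : Finset (Fin m)),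
      SS R (BB Y Z T) * NN Y ≤ τ * NN Y * NN Y + (1 + k0 / 2) * SS R Y * NN (BB Y Z T) := by
    intro T _
    rcases le_or_gt (τ * NN Y) (NN (BB Y Z T)) with h1 | h1
    · have h2 := hcon T h1
      have h3 : 0 ≤ τ * NN Y * NN Y := by positivity
      linarith
    · have h2 := SS_le_NN R (BB Y Z T)
      have h3 : SS R (BB Y Z T) * NN Y ≤ τ * NN Y * NN Y :=
        mul_le_mul_of_nonneg_right (h2.trans h1.le) hN.le
      have h4 : 0 ≤ (1 + k0 / 2) * SS R Y * NN (BB Y Z T) := by
        have := hNnn T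
        positivity
      linarith
  have hsum := Finset.sum_le_sum hterm
  rw [← Finset.sum_mul, ← hsplitS, Finset.sum_add_distrib, Finset.sum_const, ← Finset.mul_sum,
    nsmul_eq_mul] at hsum
  have hcard : (((univ.erase (univ : Finset (Fin m))).card : ℕ) : ℝ) ≤ 2 ^ m := by
    have h1 : (univ.erase (univ : Finset (Fin m))).card ≤ (univ : Finset (Finset (Fin m))).card :=
      Finset.card_le_card (Finset.erase_subset _ _)
    rw [Finset.card_univ, Fintype.card_finset, Fintype.card_fin] at h1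
    exact_mod_cast h1
  have hrest : ∑ T ∈ univ.erase (univ : Finset (Fin m)), NN (BB Y Z T) ≤ (1 - k0) * NN Y := by
    linarith
  have h1 : (((univ.erase (univ : Finset (Fin m))).card : ℕ) : ℝ) * (τ * NN Y * NN Y) ≤
      2 ^ m * (τ * NN Y * NN Y) := mul_le_mul_of_nonneg_right hcard (by positivity)
  have h2 : (1 + k0 / 2) * SS R Y * ∑ T ∈ univ.erase (univ : Finset (Fin m)), NN (BB Y Z T) ≤
      (1 + k0 / 2) * SS R Y * ((1 - k0) * NN Y) :=
    mul_le_mul_of_nonneg_left hrest (by positivity)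
  have h3 : (2 : ℝ) ^ m * τ = β * k0 / 4 := by
    rw [hτ, pow_add]
    field_simp
    norm_num
  have h4 : SS R Y * NN Y ≤ β * k0 / 4 * NN Y * NN Y +
      (1 + k0 / 2) * SS R Y * ((1 - k0) * NN Y) := by
    have : (2 : ℝ) ^ m * (τ * NN Y * NN Y) = β * k0 / 4 * NN Y * NN Y := by
      rw [← h3]
      ring
    linarith
  have h5 : SS R Y * NN Y ≤ (β * k0 / 4 * NN Y + (1 + k0 / 2) * SS R Y * (1 - k0)) * NN Y := by
    linarith
  have h6 := le_of_mul_le_mul_right h5 hN
  have h7 : (1 + k0 / 2) * SS R Y * (1 - k0) = SS R Y - SS R Y * (k0 / 2) * (1 + k0) := by ring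
  have h8 : SS R Y * (k0 / 2) ≤ SS R Y * (k0 / 2) * (1 + k0) := by
    have : 0 ≤ SS R Y * (k0 / 2) := by positivity
    nlinarith
  have h9 : β * NN Y * (k0 / 2) ≤ SS R Y * (k0 / 2) :=
    mul_le_mul_of_nonneg_right hS (by positivity)
  have h10 : 0 < β * k0 * NN Y := by positivity
  nlinarith

theorem box : S_BOX := by
  classical
  intro m κ' β n₁ hκ' hβ
  set κ := min κ' 1 with hκdef
  have hκ : 0 < κ := lt_min hκ' one_pos
  have hκ1 : κ ≤ 1 := min_le_right _ _
  set γ := 1 + κ ^ m / 2 with hγ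
  have hγ1 : 1 < γ := by
    have : 0 < κ ^ m := by positivity
    linarith
  set τ := β * κ ^ m / 2 ^ (m + 2) with hτ
  have hτpos : 0 < τ := by positivity
  -- the hypothesis on boxes
  let Hom : (α : Type) → ((Fin m → α) → Prop) → (Fin m → Finset α) → Prop := fun α R X =>
    ∀ Y : Fin m → Finset α, (∀ i, Y i ⊆ X i) → (∀ i, n₁ ≤ (Y i).card) →
      ∃ Z : Fin m → Finset α, (∀ i, Z i ⊆ Y i) ∧ (∀ i, κ' * ((Y i).card : ℝ) ≤ ((Z i).card : ℝ)) ∧
        ((∀ x : Fin m → α, (∀ i, x i ∈ Z i) → R x) ∨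
          (∀ x : Fin m → α, (∀ i, x i ∈ Z i) → ¬ R x))
  have key : ∀ t : ℕ, ∃ (c : ℝ) (n : ℕ), 0 < c ∧ ∀ (α : Type) (R : (Fin m → α) → Prop)
      (X : Fin m → Finset α), Hom α R X → (∀ i, n ≤ (X i).card) → β * NN X ≤ SS R X →
      NN X < γ ^ t * SS R X → ∃ D : Fin m → Finset α, (∀ i, D i ⊆ X i) ∧
        (∀ i, c * ((X i).card : ℝ) ≤ ((D i).card : ℝ)) ∧
        ∀ x : Fin m → α, (∀ i, x i ∈ D i) → R x := by
    intro t
    induction t with
    | zero =>
      refine ⟨1, 0, one_pos, fun α R X _ _ _ h => ?_⟩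
      rw [pow_zero, one_mul] at h
      exact absurd (SS_le_NN R X) (not_le.2 h)
    | succ t ih =>
      obtain ⟨c, n, hc, ih⟩ := ih
      obtain ⟨n', hn'⟩ := exists_nat_gt ((n : ℝ) / τ)
      refine ⟨min κ (c * τ), max (max n₁ n') 1, by positivity, ?_⟩
      intro α R X hX hXn hXβ hXt
      have hXpos : ∀ i, (0 : ℝ) < (X i).card := fun i => by
        have : 1 ≤ (X i).card := (le_max_right _ _).trans (hXn i)
        exact_mod_cast this
      have hN : 0 < NN X := by
        rw [NN_prod]
        exact Finset.prod_pos fun i _ => hXpos i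
      obtain ⟨Z, hZ, hZc, hZR⟩ := hX X (fun i => Finset.Subset.refl _)
        (fun i => ((le_max_left _ _).trans (le_max_left _ _)).trans (hXn i))
      have hZc' : ∀ i, κ * ((X i).card : ℝ) ≤ ((Z i).card : ℝ) := fun i =>
        (mul_le_mul_of_nonneg_right (min_le_left _ _) (Nat.cast_nonneg _)).trans (hZc i)
      rcases hZR with hZR | hZR
      · refine ⟨Z, hZ, fun i => ?_, hZR⟩
        exact (mul_le_mul_of_nonneg_right (min_le_left _ _) (Nat.cast_nonneg _)).trans (hZc' i)
      · obtain ⟨T, hT1, hT2⟩ := box_step R hZ hκ hβ hκ1 hZc' hZR hN hXβ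
        have hBX : ∀ i, BB X Z T i ⊆ X i := by
          intro i
          unfold BB
          split_ifs
          · exact hZ i
          · exact Finset.sdiff_subset
        have hBpos : 0 < NN (BB X Z T) := lt_of_lt_of_le (by positivity) hT1
        -- the sides are large
        have hside : ∀ i, τ * ((X i).card : ℝ) ≤ ((BB X Z T i).card : ℝ) := by
          intro i
          have h1 : NN (BB X Z T) ≤ ((BB X Z T i).card : ℝ) * ∏ j ∈ univ.erase i, ((X j).card : ℝ) := by
            rw [NN_prod, ← Finset.mul_prod_erase univ _ (Finset.mem_univ i)]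
            refine mul_le_mul_of_nonneg_left ?_ (Nat.cast_nonneg _)
            exact Finset.prod_le_prod (fun j _ => Nat.cast_nonneg _) fun j _ => by
              exact_mod_cast Finset.card_le_card (hBX j)
          have h2 : NN X = ((X i).card : ℝ) * ∏ j ∈ univ.erase i, ((X j).card : ℝ) := by
            rw [NN_prod, ← Finset.mul_prod_erase univ _ (Finset.mem_univ i)]
          have h3 : 0 < ∏ j ∈ univ.erase i, ((X j).card : ℝ) :=
            Finset.prod_pos fun j _ => hXpos j
          rw [h2, ← mul_assoc] at hT1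
          exact le_of_mul_le_mul_right (hT1.trans h1) h3
        have hBn : ∀ i, n ≤ (BB X Z T i).card := by
          intro i
          have h1 := hside i
          have h2 : (n' : ℝ) ≤ (X i).card := by
            exact_mod_cast ((le_max_right _ _).trans (le_max_left _ _)).trans (hXn i)
          have h3 : (n : ℝ) < n' * τ := by rwa [div_lt_iff₀ hτpos] at hn'
          have h4 : (n : ℝ) ≤ ((BB X Z T i).card : ℝ) := by nlinarith
          exact_mod_cast h4
        have hBHom : Hom α R (BB X Z T) := fun Y hY hYn => hX Y (fun i => (hY i).trans (hBX i)) hYn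
        have hBβ : β * NN (BB X Z T) ≤ SS R (BB X Z T) := by
          have h1 : β * NN (BB X Z T) * NN X ≤ SS R (BB X Z T) * NN X := by
            refine le_trans ?_ hT2
            have h2 : SS R X ≤ γ * SS R X := by
              have : 0 ≤ SS R X := by unfold SS; positivity
              nlinarith
            have h3 : β * NN X ≤ γ * SS R X := hXβ.trans h2
            calc β * NN (BB X Z T) * NN X = (β * NN X) * NN (BB X Z T) := by ring
              _ ≤ (γ * SS R X) * NN (BB X Z T) := mul_le_mul_of_nonneg_right h3 hBpos.le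
          exact le_of_mul_le_mul_right h1 hN
        have hBt : NN (BB X Z T) < γ ^ t * SS R (BB X Z T) := by
          have h1 : NN (BB X Z T) * NN X < γ ^ t * SS R (BB X Z T) * NN X := by
            calc NN (BB X Z T) * NN X < NN (BB X Z T) * (γ ^ (t + 1) * SS R X) :=
                  mul_lt_mul_of_pos_left hXt hBpos
              _ = γ ^ t * (γ * SS R X * NN (BB X Z T)) := by ring
              _ ≤ γ ^ t * (SS R (BB X Z T) * NN X) :=
                  mul_le_mul_of_nonneg_left hT2 (by positivity)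
              _ = γ ^ t * SS R (BB X Z T) * NN X := by ring
          exact lt_of_mul_lt_mul_right h1 hN.le
        obtain ⟨D, hD1, hD2, hD3⟩ := ih α R (BB X Z T) hBHom hBn hBβ hBt
        refine ⟨D, fun i => (hD1 i).trans (hBX i), fun i => ?_, hD3⟩
        have h1 := hside i
        have h2 := hD2 i
        have h3 : min κ (c * τ) * ((X i).card : ℝ) ≤ c * τ * ((X i).card : ℝ) :=
          mul_le_mul_of_nonneg_right (min_le_right _ _) (Nat.cast_nonneg _)
        have h4 : c * (τ * ((X i).card : ℝ)) ≤ c * ((BB X Z T i).card : ℝ) :=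
          mul_le_mul_of_nonneg_left h1 hc.le
        linarith
  obtain ⟨t, ht⟩ := pow_unbounded_of_one_lt (1 / β) hγ1
  obtain ⟨c, n, hc, hk⟩ := key t
  refine ⟨c, max n 1, hc, fun α R X hX hXn hXβ => ?_⟩
  have hXpos : ∀ i, (0 : ℝ) < (X i).card := fun i => by
    have : 1 ≤ (X i).card := (le_max_right _ _).trans (hXn i)
    exact_mod_cast this
  have hN : 0 < NN X := by
    rw [NN_prod]
    exact Finset.prod_pos fun i _ => hXpos i
  have hXβ' : β * NN X ≤ SS R X := by
    unfold NN SS
    refine le_trans (le_of_eq ?_) (hXβ.trans (le_of_eq ?_))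
    · congr!
    · congr!
  refine hk α R X hX (fun i => (le_max_left _ _).trans (hXn i)) hXβ' ?_
  have h1 : 1 < γ ^ t * β := by rwa [div_lt_iff₀ hβ] at ht
  calc NN X < γ ^ t * β * NN X := by nlinarith
    _ = γ ^ t * (β * NN X) := by ring
    _ ≤ γ ^ t * SS R X := mul_le_mul_of_nonneg_left hXβ' (by positivity)

end Q86.PA
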