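import Pool.Agent.Q86.PA.Stm

/-!
A positive fraction of the tuples of rainbow simplices have a common point.
-/

set_option autoImplicit false

namespace Q86.PA

open Finset

theorem cnt (h : S_TV) : S_CNT := by
  classical
  intro d
  obtain ⟨p, hpd, hp⟩ := Nat.exists_infinite_primes (d + 1)
  haveI : Fact p.Prime := ⟨hp⟩
  set m := 2 * p - 1 with hm
  have hp2 : 2 ≤ p := hp.two_le
  have hmd : d + 1 ≤ m := by omega
  let Pt : Type := Fin (d + 1) → Fin (d + 1) → Fin m
  have hPt : (0 : ℝ) < Fintype.card Pt := by
    have : 0 < Fintype.card Pt := Fintype.card_pos_iff.2 ⟨fun _ _ => ⟨0, by omega⟩⟩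
    exact_mod_cast this
  obtain ⟨em⟩ : Nonempty (Fin (d + 1) ↪ ZMod p) := by
    apply Function.Embedding.nonempty_of_card_le
    rw [ZMod.card, Fintype.card_fin]
    exact hpd
  refine ⟨1 / Fintype.card Pt, by positivity, fun C hC => ?_⟩
  set I := (Fintype.piFinset fun _ : Fin (d + 1) => Fintype.piFinset C).filter
        fun τ => ∃ q : E d, ∀ k, InHull q (τ k) with hI
  set Ω : Finset (Fin (d + 1) → Fin m → E d) :=
    Fintype.piFinset fun i => Fintype.piFinset fun _ : Fin m => C i with hΩ
  set N := (Fintype.piFinset C).card with hN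
  have hNprod : N = ∏ i, (C i).card := Fintype.card_piFinset C
  have hNpos : 0 < N := Finset.card_pos.2 (Fintype.piFinset_nonempty.2 hC)
  have hΩc : Ω.card = N ^ m := by
    rw [hΩ, Fintype.card_piFinset, hNprod, ← Finset.prod_pow]
    refine Finset.prod_congr rfl fun i _ => ?_
    rw [Fintype.card_piFinset, Finset.prod_const, Finset.card_univ, Fintype.card_fin]
  -- the good patterns
  set Good : Finset Pt := univ.filter fun s => ∀ i, Function.Injective fun k => s k i with hGood
  -- the fibres
  have hfib : ∀ s ∈ Good, ∀ τ ∈ I,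
      (Ω.filter fun w => (fun k i => w i (s k i)) = τ).card ≤ N ^ (m - (d + 1)) := by
    intro s hs τ hτ
    have hs' := (Finset.mem_filter.1 hs).2
    have hsub : (Ω.filter fun w => (fun k i => w i (s k i)) = τ) ⊆
        Fintype.piFinset fun i => Fintype.piFinset fun j : Fin m =>
          if hj : ∃ k, s k i = j then {τ hj.choose i} else C i := by
      intro w hw
      obtain ⟨hwΩ, hwτ⟩ := Finset.mem_filter.1 hw
      rw [Fintype.mem_piFinset]
      intro i
      rw [Fintype.mem_piFinset]
      intro j
      by_cases hj : ∃ k, s k i = j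
      · rw [dif_pos hj, Finset.mem_singleton]
        have h1 := congrFun (congrFun hwτ hj.choose) i
        rw [← h1]
        exact congrArg (w i) hj.choose_spec.symm
      · rw [dif_neg hj]
        have h1 := Fintype.mem_piFinset.1 (Fintype.mem_piFinset.1 hwΩ i) j
        exact h1
    refine (Finset.card_le_card hsub).trans ?_
    rw [Fintype.card_piFinset, hNprod, ← Finset.prod_pow]
    refine Finset.prod_le_prod (fun _ _ => Nat.zero_le _) fun i _ => ?_
    rw [Fintype.card_piFinset]
    have h1 : (∏ j : Fin m, (if hj : ∃ k, s k i = j then {τ hj.choose i} else C i).card) =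
        ∏ j : Fin m, (if ∃ k, s k i = j then 1 else (C i).card) := by
      refine Finset.prod_congr rfl fun j _ => ?_
      split_ifs with hj
      · exact Finset.card_singleton _
      · rfl
    rw [h1, Finset.prod_ite, Finset.prod_const_one, one_mul, Finset.prod_const]
    have h2 : (univ.filter fun j : Fin m => ¬ ∃ k, s k i = j).card = m - (d + 1) := by
      have h3 : (univ.filter fun j : Fin m => ¬ ∃ k, s k i = j) = (univ.image fun k => s k i)ᶜ := by
        ext j
        simp
      rw [h3, Finset.card_compl, Fintype.card_fin, Finset.card_image_of_injective _ (hs' i),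
        Finset.card_univ, Fintype.card_fin]
    rw [h2]
  -- covering
  have hcov : Ω ⊆ Good.biUnion fun s => I.biUnion fun τ =>
      Ω.filter fun w => (fun k i => w i (s k i)) = τ := by
    intro w hw
    obtain ⟨s, hs, q, hq⟩ := h p d w
    refine Finset.mem_biUnion.2 ⟨fun k i => s (em k) i, ?_, Finset.mem_biUnion.2
      ⟨fun k i => w i (s (em k) i), ?_, ?_⟩⟩
    · refine Finset.mem_filter.2 ⟨Finset.mem_univ _, fun i k k' hk => ?_⟩
      exact em.injective (hs i _ _ hk)
    · refine Finset.mem_filter.2 ⟨?_, q, fun k => hq (em k)⟩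
      rw [Fintype.mem_piFinset]
      intro k
      rw [Fintype.mem_piFinset]
      intro i
      exact Fintype.mem_piFinset.1 (Fintype.mem_piFinset.1 hw i) _
    · exact Finset.mem_filter.2 ⟨hw, rfl⟩
  have hcard : N ^ m ≤ Fintype.card Pt * (I.card * N ^ (m - (d + 1))) := by
    rw [← hΩc]
    refine (Finset.card_le_card hcov).trans ?_
    refine (Finset.card_biUnion_le_card_mul _ _ (I.card * N ^ (m - (d + 1))) ?_).trans ?_
    · intro s hs
      exact Finset.card_biUnion_le_card_mul _ _ _ fun τ hτ => hfib s hs τ hτ
    · exact Nat.mul_le_mul_right _ (Finset.card_le_univ Good)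
  have hsplit : N ^ m = N ^ (d + 1) * N ^ (m - (d + 1)) := by
    rw [← pow_add]
    congr 1
    omega
  have hfin : N ^ (d + 1) ≤ Fintype.card Pt * I.card := by
    rw [hsplit, ← mul_assoc] at hcard
    exact Nat.le_of_mul_le_mul_right hcard (by positivity)
  have hfinR : (N : ℝ) ^ (d + 1) ≤ (Fintype.card Pt : ℝ) * (I.card : ℝ) := by exact_mod_cast hfin
  rw [div_mul_eq_mul_div, one_mul, div_le_iff₀ hPt]
  linarith

end Q86.PA
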