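import Pool.Agent.Q86.PA.Stm
import Pool.Agent.Q136.FracHelly

/-!
Fractional Helly theorem for ordered tuples.
-/

set_option autoImplicit false

namespace Q86.PA

open Finset

theorem fh : S_FH := by
  classical
  intro d X S K α hS hcl hconv hα
  by_contra hcon
  push Not at hcon
  have hfin : Module.finrank ℝ (E d) = d := by simp [E]
  -- least norm points
  have hch : ∀ ρ : Fin d → X, ∃ q : E d, (⋂ j, K (ρ j)).Nonempty →
      Q136.FH.IsMin (⋂ j, K (ρ j)) q := by
    intro ρ
    by_cases hne : (⋂ j, K (ρ j)).Nonempty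
    · obtain ⟨p, hp⟩ := Q136.FH.exists_isMin (isClosed_iInter (fun j => hcl (ρ j))) hne
      exact ⟨p, fun _ => hp⟩
    · exact ⟨0, fun h => absurd h hne⟩
  choose pt hpt using hch
  set I := (Fintype.piFinset fun _ : Fin (d + 1) => S).filter
        fun τ => ∃ q : E d, ∀ k, q ∈ K (τ k) with hI
  -- the key claim
  have key : ∀ τ ∈ I, ∃ k : Fin (d + 1), pt (fun j => τ (k.succAbove j)) ∈ K (τ k) := by
    intro τ hτ
    obtain ⟨hτS, q, hq⟩ := Finset.mem_filter.1 hτ
    set R : Finset X := univ.image τ with hR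
    have hRne : (⋂ x ∈ R, K x).Nonempty := by
      refine ⟨q, ?_⟩
      simp only [Set.mem_iInter]
      intro x hx
      obtain ⟨k, _, rfl⟩ := Finset.mem_image.1 hx
      exact hq k
    obtain ⟨w, hw⟩ := Q136.FH.exists_isMin
      (isClosed_iInter (fun x => isClosed_iInter (fun _ => hcl x))) hRne
    obtain ⟨T, hTR, hTc, hT⟩ := Q136.FH.compress_le K hconv R hw
    rw [hfin] at hTc
    have hidx : ∀ t : T, ∃ k, τ k = t := by
      intro t
      obtain ⟨k, _, hk⟩ := Finset.mem_image.1 (hTR t.2)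
      exact ⟨k, hk⟩
    choose idx hidx using hidx
    have hcardI : (univ.image idx).card < (univ : Finset (Fin (d + 1))).card := by
      rw [Finset.card_univ, Fintype.card_fin]
      have h1 : (univ.image idx).card ≤ (univ : Finset T).card := Finset.card_image_le
      rw [Finset.card_univ, Fintype.card_coe] at h1
      omega
    obtain ⟨k, _, hk⟩ := Finset.exists_mem_notMem_of_card_lt_card hcardI
    refine ⟨k, ?_⟩
    have hTk : ∀ t ∈ T, ∃ j, τ (k.succAbove j) = t := by
      intro t ht
      have h1 : idx ⟨t, ht⟩ ≠ k := by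
        intro h2
        exact hk (Finset.mem_image.2 ⟨⟨t, ht⟩, Finset.mem_univ _, h2⟩)
      obtain ⟨j, hj⟩ := Fin.exists_succAbove_eq h1
      exact ⟨j, by rw [hj]; exact hidx ⟨t, ht⟩⟩
    have hwR : ∀ k, w ∈ K (τ k) := by
      intro k
      have := hw.1
      simp only [Set.mem_iInter] at this
      exact this (τ k) (Finset.mem_image.2 ⟨k, Finset.mem_univ _, rfl⟩)
    have hmin : Q136.FH.IsMin (⋂ j, K (τ (k.succAbove j))) w := by
      refine ⟨Set.mem_iInter.2 fun j => hwR _, fun q hq => hT.2 q ?_⟩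
      simp only [Set.mem_iInter]
      intro t ht
      obtain ⟨j, hj⟩ := hTk t ht
      rw [← hj]
      exact Set.mem_iInter.1 hq j
    have h2 := hpt (fun j => τ (k.succAbove j)) ⟨w, hmin.1⟩
    have h3 : pt (fun j => τ (k.succAbove j)) = w :=
      Q136.FH.isMin_unique (convex_iInter (fun j => hconv _)) h2 hmin
    rw [h3]
    exact hwR k
  -- counting
  have hcov : I ⊆ (univ : Finset (Fin (d + 1))).biUnion fun k =>
      ((Fintype.piFinset fun _ : Fin d => S).biUnion fun ρ =>
        (S.filter fun x => pt ρ ∈ K x).image fun x => k.insertNth (α := fun _ => X) x ρ) := by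
    intro τ hτ
    obtain ⟨k, hk⟩ := key τ hτ
    have hτS := (Finset.mem_filter.1 hτ).1
    rw [Fintype.mem_piFinset] at hτS
    refine Finset.mem_biUnion.2 ⟨k, Finset.mem_univ _, Finset.mem_biUnion.2
      ⟨fun j => τ (k.succAbove j), ?_, ?_⟩⟩
    · rw [Fintype.mem_piFinset]
      exact fun j => hτS _
    · refine Finset.mem_image.2 ⟨τ k, Finset.mem_filter.2 ⟨hτS k, hk⟩, ?_⟩
      exact Fin.insertNth_self_removeNth k τ
  have hcard : (I.card : ℝ) ≤ ∑ k : Fin (d + 1), ∑ ρ ∈ Fintype.piFinset (fun _ : Fin d => S),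
      ((S.filter fun x => pt ρ ∈ K x).card : ℝ) := by
    have h1 : I.card ≤ ∑ k : Fin (d + 1), ∑ ρ ∈ Fintype.piFinset (fun _ : Fin d => S),
        (S.filter fun x => pt ρ ∈ K x).card := by
      refine (Finset.card_le_card hcov).trans (Finset.card_biUnion_le.trans ?_)
      refine Finset.sum_le_sum fun k _ => ?_
      refine Finset.card_biUnion_le.trans ?_
      exact Finset.sum_le_sum fun ρ _ => Finset.card_image_le
    exact_mod_cast h1
  have hSpos : (0 : ℝ) < S.card := by exact_mod_cast Finset.card_pos.2 hS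
  have hlt : (∑ k : Fin (d + 1), ∑ ρ ∈ Fintype.piFinset (fun _ : Fin d => S),
      ((S.filter fun x => pt ρ ∈ K x).card : ℝ)) < ∑ k : Fin (d + 1),
        ∑ ρ ∈ Fintype.piFinset (fun _ : Fin d => S), (α / (d + 1) * (S.card : ℝ)) := by
    apply Finset.sum_lt_sum_of_nonempty Finset.univ_nonempty
    intro k _
    apply Finset.sum_lt_sum_of_nonempty (Fintype.piFinset_nonempty.2 fun _ => hS)
    intro ρ _
    exact hcon (pt ρ)
  have he : (∑ k : Fin (d + 1),
        ∑ ρ ∈ Fintype.piFinset (fun _ : Fin d => S), (α / (d + 1) * (S.card : ℝ))) =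
      α * (S.card : ℝ) ^ (d + 1) := by
    simp only [Finset.sum_const, Finset.card_univ, Fintype.card_fin,
      Fintype.card_piFinset_const, nsmul_eq_mul]
    push_cast
    field_simp
    ring
  rw [he] at hlt
  linarith

end Q86.PA
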