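import Pool.Agent.Q86.PA.Stm

/-!
Centerpoints, general position and the separation lemma.
-/

set_option autoImplicit false

namespace Q86.PA

open Finset Module

theorem cp : S_CP := by
  classical
  intro d P hP
  have hfin : finrank ℝ (E d) = d := by simp [E]
  -- subsets with a small complement
  set s : Finset (Finset (E d)) := P.powerset.filter fun Q => (d + 1) * (P \ Q).card < P.card
    with hs
  have h_inter : ∀ I ⊆ s, I.card ≤ d + 1 →
      (⋂ Q ∈ I, convexHull ℝ (Q : Set (E d))).Nonempty := by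
    intro I hI hIc
    by_contra hne
    have hcov : P ⊆ I.biUnion fun Q => P \ Q := by
      intro p hp
      by_contra hp'
      apply hne
      refine ⟨p, ?_⟩
      simp only [Set.mem_iInter]
      intro Q hQ
      apply subset_convexHull
      by_contra hpQ
      exact hp' (mem_biUnion.2 ⟨Q, hQ, mem_sdiff.2 ⟨hp, hpQ⟩⟩)
    have h1 : P.card ≤ ∑ Q ∈ I, (P \ Q).card := (card_le_card hcov).trans card_biUnion_le
    have hIne : I.Nonempty := by
      rw [nonempty_iff_ne_empty]
      rintro rfl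
      apply hne
      simp
    have h2 : ∑ Q ∈ I, (d + 1) * (P \ Q).card < ∑ Q ∈ I, P.card :=
      sum_lt_sum_of_nonempty hIne fun Q hQ => by
        have := hI hQ
        rw [hs, mem_filter] at this
        exact this.2
    rw [← mul_sum, sum_const, smul_eq_mul] at h2
    have h3 : (d + 1) * P.card ≤ (d + 1) * ∑ Q ∈ I, (P \ Q).card := Nat.mul_le_mul_left _ h1
    have h4 : I.card * P.card ≤ (d + 1) * P.card := Nat.mul_le_mul_right _ hIc
    omega
  obtain ⟨z, hz⟩ := Convex.helly_theorem' (𝕜 := ℝ)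
    (F := fun Q : Finset (E d) => convexHull ℝ (Q : Set (E d)))
    (s := s) (fun Q _ => convex_convexHull ℝ _) (by rw [hfin]; exact h_inter)
  simp only [Set.mem_iInter] at hz
  refine ⟨z, fun f => ?_⟩
  by_contra hlt
  push Not at hlt
  set Q := P.filter fun x => f x < f z with hQ
  have hPQ : P \ Q = P.filter fun x => f z ≤ f x := by
    ext p
    simp only [hQ, mem_sdiff, mem_filter, not_and, not_lt]
    constructor
    · rintro ⟨h1, h2⟩
      exact ⟨h1, h2 h1⟩
    · rintro ⟨h1, h2⟩
      exact ⟨h1, fun _ => h2⟩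
  have hQs : Q ∈ s := by
    rw [hs, mem_filter, mem_powerset, hPQ]
    refine ⟨filter_subset _ _, lt_of_le_of_lt (le_of_eq ?_) hlt⟩
    congr!
  have hzQ := hz Q hQs
  have hsub : convexHull ℝ (Q : Set (E d)) ⊆ {x | f x < f z} := by
    apply convexHull_min
    · intro p hp
      rw [hQ, coe_filter] at hp
      exact hp.2
    · exact convex_halfSpace_lt f.isLinear _
  have hz2 : f z < f z := hsub hzQ
  exact lt_irrefl _ hz2

theorem gpl : S_GPL := by
  classical
  intro d U hU f hf c s hs
  have hfin : finrank ℝ (E d) = d := by simp [E]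
  by_contra hcard
  push Not at hcard
  obtain ⟨t, hts, htc⟩ := Finset.exists_subset_card_eq (n := d + 1) (s := s) (by omega)
  have hai := hU t (fun x hx => (hs x (hts hx)).1) (by omega)
  have h1 := hai.finrank_vectorSpan (n := d) (by rw [Fintype.card_coe]; exact htc)
  have h2 : vectorSpan ℝ (Set.range fun x : t => (x : E d)) ≤ LinearMap.ker f := by
    rw [vectorSpan_def, Submodule.span_le]
    rintro v hv
    obtain ⟨x, ⟨x', rfl⟩, y, ⟨y', rfl⟩, rfl⟩ := Set.mem_vsub.1 hv
    show f (_ -ᵥ _) = 0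
    rw [vsub_eq_sub, map_sub, (hs _ (hts x'.2)).2, (hs _ (hts y'.2)).2, sub_self]
  have h3 : finrank ℝ (LinearMap.ker f) < d := by
    have h4 : LinearMap.ker f ≠ ⊤ := fun h5 => hf (LinearMap.ker_eq_top.1 h5)
    have h6 := Submodule.finrank_lt h4
    rwa [hfin] at h6
  have h5 := Submodule.finrank_mono h2
  omega

/-- a nonzero functional constant on `d` points of `E d` -/
theorem exists_functional {d : ℕ} (hd : 1 ≤ d) (z : Fin d → E d) :
    ∃ f : E d →ₗ[ℝ] ℝ, f ≠ 0 ∧ ∃ c, ∀ k, f (z k) = c := by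
  classical
  have hfin : finrank ℝ (E d) = d := by simp [E]
  obtain ⟨n, rfl⟩ : ∃ n, d = n + 1 := ⟨d - 1, by omega⟩
  set W : Submodule ℝ (E (n + 1)) := Submodule.span ℝ (Set.range fun k : Fin n => z k.succ - z 0)
    with hW
  have h1 : finrank ℝ W ≤ n := by
    have := finrank_range_le_card (R := ℝ) (fun k : Fin n => z k.succ - z 0)
    rwa [Fintype.card_fin] at this
  have h2 : W < ⊤ := by
    rw [lt_top_iff_ne_top]
    intro h3
    rw [h3, finrank_top, hfin] at h1
    omega
  obtain ⟨f, hf, hfW⟩ := Submodule.exists_le_ker_of_lt_top W h2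
  refine ⟨f, hf, f (z 0), fun k => ?_⟩
  refine Fin.cases rfl (fun j => ?_) k
  have h4 : z j.succ - z 0 ∈ W := Submodule.subset_span ⟨j, rfl⟩
  have h5 : f (z j.succ - z 0) = 0 := hfW h4
  rw [map_sub] at h5
  linarith

theorem sep_lemma (h : S_CP) : S_SEP := by
  classical
  intro d U hd hGP q A hne hAU
  choose z hz using fun k => h d (A k) (hne k)
  obtain ⟨f, hf, c, hfc⟩ := exists_functional hd z
  have key : ∀ g : E d →ₗ[ℝ] ℝ, g ≠ 0 → (∃ c, ∀ k, g (z k) = c ∧ g q ≤ c) →
      ∃ (f : E d →ₗ[ℝ] ℝ) (A' : Fin d → Finset (E d)), (∀ k, A' k ⊆ A k) ∧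
      (∀ k, (A k).card ≤ (d + 1) * ((A' k).card + d)) ∧ ∀ k, ∀ x ∈ A' k, f q < f x := by
    rintro g hg ⟨c, hc⟩
    refine ⟨g, fun k => (A k).filter fun x => c < g x, fun k => filter_subset _ _, fun k => ?_,
      fun k x hx => ?_⟩
    · refine (hz k g).trans (Nat.mul_le_mul_left _ ?_)
      rw [(hc k).1]
      have h1 : ((A k).filter fun x => c ≤ g x) ⊆
          ((A k).filter fun x => c < g x) ∪ ((A k).filter fun x => g x = c) := by
        intro x hx
        obtain ⟨hxA, hx2⟩ := mem_filter.1 hx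
        rw [mem_union, mem_filter, mem_filter]
        rcases lt_or_eq_of_le hx2 with h3 | h3
        · exact Or.inl ⟨hxA, h3⟩
        · exact Or.inr ⟨hxA, h3.symm⟩
      have h2 : ((A k).filter fun x => g x = c).card ≤ d :=
        hGP g hg c _ fun x hx => ⟨hAU k x (mem_filter.1 hx).1, (mem_filter.1 hx).2⟩
      have h3 := (card_le_card h1).trans (card_union_le _ _)
      refine le_trans (le_of_eq ?_) (h3.trans (Nat.add_le_add_left h2 _))
      congr!
    · obtain ⟨hxA, hx2⟩ := mem_filter.1 hx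
      have := hc k
      linarith
  rcases le_total (f q) c with h1 | h1
  · exact key f hf ⟨c, fun k => ⟨hfc k, h1⟩⟩
  · refine key (-f) (neg_ne_zero.2 hf) ⟨-c, fun k => ⟨?_, ?_⟩⟩
    · rw [LinearMap.neg_apply, hfc k]
    · rw [LinearMap.neg_apply]
      linarith

end Q86.PA
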