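import Mathlib

/-!
# Homogeneous selection for colour classes of unequal sizes (reduction, by helper134)

Arbitrary sizes are not harder than equal sizes: a constant which works for equal-size classes
(only for large sizes, pairwise disjoint classes, and points in general position) works for
classes of arbitrary sizes.
-/

set_option autoImplicit false

namespace Q86.PA.Red

open Metric Set MeasureTheory

/-- Euclidean `d`-space. -/
abbrev E (d : ℕ) : Type := EuclideanSpace ℝ (Fin d)

/-- The classes `C₁, …, C_{d+1}` admit a homogeneous selection with constant `c`. -/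
def HasSelection (d : ℕ) (c : ℝ) (C : Fin (d + 1) → Finset (E d)) : Prop :=
  ∃ (p : E d) (D : Fin (d + 1) → Finset (E d)), (∀ i, D i ⊆ C i) ∧
    (∀ i, c * ((C i).card : ℝ) ≤ ((D i).card : ℝ)) ∧
    ∀ x : Fin (d + 1) → E d, (∀ i, x i ∈ D i) → p ∈ convexHull ℝ (Set.range x)

/-- The constant `c` works for all nonempty finite classes in dimension `d`, of arbitrary
sizes. -/
def AnySizes (d : ℕ) (c : ℝ) : Prop :=
  ∀ C : Fin (d + 1) → Finset (E d), (∀ i, (C i).Nonempty) → HasSelection d c C

/-- The constant `c` works in dimension `d` for all sufficiently large `n` and all pairwise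
disjoint classes of exactly `n` points each, such that the union of the classes is in general
position (any at most `d + 1` of its points are affinely independent). -/
def EqualSizes (d : ℕ) (c : ℝ) : Prop :=
  ∃ n₀ : ℕ, ∀ n : ℕ, n₀ ≤ n → ∀ C : Fin (d + 1) → Finset (E d), (∀ i, (C i).card = n) →
    (∀ i j, i ≠ j → Disjoint (C i) (C j)) →
    (∀ s : Finset (E d), (∀ x ∈ s, ∃ i, x ∈ C i) → s.card ≤ d + 1 →
      AffineIndependent ℝ (fun x : s => (x : E d))) →
    HasSelection d c C

/-- The span of at most `d` points is not the whole space. -/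
lemma span_ne_top {d : ℕ} {T : Type} [DecidableEq T] (f : T → E d) (u : Finset T)
    (hu : u.card ≤ d) : affineSpan ℝ (f '' (u : Set T)) ≠ ⊤ := by
  intro h
  rcases Nat.eq_zero_or_pos u.card with h0 | h0
  · rw [Finset.card_eq_zero] at h0
    subst h0
    simp only [Finset.coe_empty, image_empty, AffineSubspace.span_empty] at h
    exact AffineSubspace.bot_ne_top ℝ (E d) (E d) h
  · obtain ⟨n, hn⟩ : ∃ n, u.card = n + 1 := ⟨u.card - 1, by omega⟩
    have h1 := finrank_vectorSpan_image_finset_le ℝ f u hn
    have h2 : vectorSpan ℝ (f '' (u : Set T)) = ⊤ := by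
      rw [← direction_affineSpan, h, AffineSubspace.direction_top]
    rw [Finset.coe_image, h2, finrank_top, finrank_euclideanSpace, Fintype.card_fin] at h1
    omega

/-- Small perturbations into general position. -/
lemma perturb {d : ℕ} {T : Type} [Fintype T] [DecidableEq T] (g : T → E d) {ε : ℝ} (hε : 0 < ε) :
    ∃ f : T → E d, (∀ t, dist (f t) (g t) < ε) ∧
      ∀ u : Finset T, u.card ≤ d + 1 → AffineIndependent ℝ (fun t : u => f t) := by
  have key : ∀ s : Finset T, ∃ f : T → E d, (∀ t, dist (f t) (g t) < ε) ∧
      ∀ u : Finset T, u ⊆ s → u.card ≤ d + 1 → AffineIndependent ℝ (fun t : u => f t) := by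
    intro s
    induction s using Finset.induction_on with
    | empty =>
      refine ⟨g, fun t => by simpa using hε, ?_⟩
      intro u hu _
      have : u = ∅ := Finset.subset_empty.mp hu
      subst this
      have : Subsingleton (↥(∅ : Finset T)) := ⟨fun a => absurd a.2 (Finset.notMem_empty _)⟩
      exact affineIndependent_of_subsingleton ℝ _
    | insert a s ha ih =>
      obtain ⟨f, hf1, hf2⟩ := ih
      -- avoid the spans
      obtain ⟨y, hy1, hy2⟩ : ∃ y ∈ ball (g a) ε, ∀ u ∈ s.powerset, u.card ≤ d →
          y ∉ affineSpan ℝ (f '' (u : Set T)) := by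
        have hnull : volume (⋃ u ∈ s.powerset.filter (fun u => u.card ≤ d),
            (affineSpan ℝ (f '' (u : Set T)) : Set (E d))) = 0 := by
          refine (measure_biUnion_null_iff (Finset.countable_toSet _)).mpr ?_
          intro u hu
          have hu' := (Finset.mem_filter.mp (Finset.mem_coe.mp hu)).2
          exact Measure.addHaar_affineSubspace volume _ (span_ne_top f u hu')
        have hpos : volume (ball (g a) ε \ (⋃ u ∈ s.powerset.filter (fun u => u.card ≤ d),
            (affineSpan ℝ (f '' (u : Set T)) : Set (E d)))) ≠ 0 := by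
          rw [measure_sdiff_null hnull]
          exact (measure_ball_pos volume (g a) hε).ne'
        obtain ⟨y, hy, hy'⟩ := nonempty_of_measure_ne_zero hpos
        refine ⟨y, hy, fun u hu hcard hmem => hy' ?_⟩
        simp only [mem_iUnion]
        exact ⟨u, Finset.mem_filter.mpr ⟨hu, hcard⟩, hmem⟩
      refine ⟨Function.update f a y, ?_, ?_⟩
      · intro t
        by_cases ht : t = a
        · subst ht
          simpa using hy1
        · rw [Function.update_of_ne ht]
          exact hf1 t
      · intro u hu hcard
        by_cases hau : a ∈ u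
        · have hsub : u.erase a ⊆ s := by
            intro t ht
            have h1 := Finset.mem_erase.mp ht
            exact (Finset.mem_insert.mp (hu h1.2)).resolve_left h1.1
          have hc1 : (u.erase a).card ≤ d := by
            rw [Finset.card_erase_of_mem hau]
            omega
          have hai := hf2 (u.erase a) hsub (by omega)
          refine AffineIndependent.affineIndependent_of_notMem_span (i := ⟨a, hau⟩) ?_ ?_
          · let e : {y : u // y ≠ ⟨a, hau⟩} ↪ ↥(u.erase a) :=
              ⟨fun z => ⟨z.1.1, Finset.mem_erase.mpr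
                ⟨fun h => z.2 (Subtype.ext h), z.1.2⟩⟩, fun z z' h => by
                  have h1 := congrArg Subtype.val h
                  exact Subtype.ext (Subtype.ext h1)⟩
            have h1 := hai.comp_embedding e
            have h2 : (fun x : {y : u // y ≠ ⟨a, hau⟩} => Function.update f a y (x : u)) =
                (fun t : ↥(u.erase a) => f t) ∘ e := by
              funext z
              have hz : z.1.1 ≠ a := fun h => z.2 (Subtype.ext h)
              simp only [Function.comp]
              rw [Function.update_of_ne hz]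
              rfl
            rw [h2]
            exact h1
          · have himg : (fun t : u => Function.update f a y t) '' {x | x ≠ ⟨a, hau⟩} =
                f '' ((u.erase a : Finset T) : Set T) := by
              ext z
              constructor
              · rintro ⟨t, ht, rfl⟩
                have hz : t.1 ≠ a := fun h => ht (Subtype.ext h)
                refine ⟨t.1, Finset.mem_coe.mpr (Finset.mem_erase.mpr ⟨hz, t.2⟩), ?_⟩
                simp only
                rw [Function.update_of_ne hz]
              · rintro ⟨t, ht, rfl⟩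
                have ht' := Finset.mem_erase.mp (Finset.mem_coe.mp ht)
                refine ⟨⟨t, ht'.2⟩, fun h => ht'.1 (congrArg Subtype.val h), ?_⟩
                simp only
                rw [Function.update_of_ne ht'.1]
            rw [himg]
            simp only [Function.update_self]
            exact hy2 _ (Finset.mem_powerset.mpr hsub) hc1
        · have hsub : u ⊆ s := by
            intro t ht
            refine (Finset.mem_insert.mp (hu ht)).resolve_left ?_
            rintro rfl
            exact hau ht
          have h1 := hf2 u hsub hcard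
          convert h1 using 2 with z
          have hz : z.1 ≠ a := by
            rintro rfl
            exact hau z.2
          rw [Function.update_of_ne hz]
  obtain ⟨f, h1, h2⟩ := key Finset.univ
  exact ⟨f, h1, fun u hu => h2 u (Finset.subset_univ u) hu⟩

/-- The main step: blow up the points and perturb. -/
theorem anySizes_of_equalSizes {d : ℕ} (hd : 1 ≤ d) {c : ℝ} (h : EqualSizes d c) :
    AnySizes d c := by
  classical
  obtain ⟨n₀, h⟩ := h
  intro C hC
  have hpos : ∀ i, 0 < (C i).card := fun i => Finset.card_pos.mpr (hC i)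
  set m : Fin (d + 1) → ℕ := fun i => (n₀ + 1) * ∏ j ∈ Finset.univ.erase i, (C j).card with hm
  set N : ℕ := (n₀ + 1) * ∏ j, (C j).card with hN
  have hmN : ∀ i, (C i).card * m i = N := by
    intro i
    simp only [hm, hN]
    rw [← Finset.mul_prod_erase Finset.univ (fun j => (C j).card) (Finset.mem_univ i)]
    ring
  have hmpos : ∀ i, 0 < m i := by
    intro i
    simp only [hm]
    exact Nat.mul_pos (Nat.succ_pos _) (Finset.prod_pos fun j _ => hpos j)
  have hNn : n₀ ≤ N := by
    have h1 : 0 < ∏ j, (C j).card := Finset.prod_pos fun j _ => hpos j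
    have h2 : n₀ + 1 ≤ (n₀ + 1) * ∏ j, (C j).card := Nat.le_mul_of_pos_right _ h1
    omega
  -- index type of the blown up points
  let T : Type := Σ i : Fin (d + 1), (↥(C i)) × Fin (m i)
  -- for each `k` a perturbation and a selection
  have step : ∀ k : ℕ, ∃ (f : T → E d) (p : E d) (D : Fin (d + 1) → Finset (E d)),
      (∀ t : T, dist (f t) (t.2.1 : E d) < 1 / ((k : ℝ) + 1)) ∧
      Function.Injective f ∧
      (∀ i, D i ⊆ Finset.univ.image (fun z : (↥(C i)) × Fin (m i) => f ⟨i, z⟩)) ∧
      (∀ i, c * (N : ℝ) ≤ ((D i).card : ℝ)) ∧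
      ∀ x : Fin (d + 1) → E d, (∀ i, x i ∈ D i) → p ∈ convexHull ℝ (Set.range x) := by
    intro k
    obtain ⟨f, hf1, hf2⟩ := perturb (d := d) (fun t : T => (t.2.1 : E d))
      (show (0 : ℝ) < 1 / ((k : ℝ) + 1) by positivity)
    have hinj : Function.Injective f := by
      intro s t hst
      by_contra hne
      have h1 := hf2 {s, t} (by rw [Finset.card_pair hne]; omega)
      have h2 := h1.injective (a₁ := ⟨s, by simp⟩) (a₂ := ⟨t, by simp⟩) hst
      exact hne (congrArg Subtype.val h2)
    have hinj' : ∀ i, Function.Injective (fun z : (↥(C i)) × Fin (m i) => f ⟨i, z⟩) := by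
      intro i z z' hz
      have h1 := hinj hz
      exact eq_of_heq (Sigma.mk.inj h1).2
    have hc1 : ∀ i, (Finset.univ.image
        (fun z : (↥(C i)) × Fin (m i) => f ⟨i, z⟩)).card = N := by
      intro i
      rw [Finset.card_image_of_injective _ (hinj' i), Finset.card_univ, Fintype.card_prod,
        Fintype.card_coe, Fintype.card_fin, hmN]
    have hc2 : ∀ i j, i ≠ j → Disjoint
        (Finset.univ.image (fun z : (↥(C i)) × Fin (m i) => f ⟨i, z⟩))
        (Finset.univ.image (fun z : (↥(C j)) × Fin (m j) => f ⟨j, z⟩)) := by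
      intro i j hij
      rw [Finset.disjoint_left]
      intro x hx hx'
      obtain ⟨z, _, rfl⟩ := Finset.mem_image.mp hx
      obtain ⟨z', _, hz'⟩ := Finset.mem_image.mp hx'
      have h1 := hinj hz'
      have h2 := congrArg Sigma.fst h1
      exact hij h2.symm
    have hc3 : ∀ s : Finset (E d), (∀ x ∈ s, ∃ i, x ∈ Finset.univ.image
        (fun z : (↥(C i)) × Fin (m i) => f ⟨i, z⟩)) → s.card ≤ d + 1 →
        AffineIndependent ℝ (fun x : s => (x : E d)) := by
      intro s hs hcard
      -- pull back along `f`
      have hpre : ∀ x : s, ∃ t : T, f t = x := by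
        intro x
        obtain ⟨i, hi⟩ := hs x.1 x.2
        obtain ⟨z, _, hz⟩ := Finset.mem_image.mp hi
        exact ⟨⟨i, z⟩, hz⟩
      choose r hr using hpre
      have hrinj : Function.Injective r := by
        intro x y hxy
        apply Subtype.ext
        rw [← hr x, ← hr y, hxy]
      have h1 := hf2 (Finset.univ.image r) (by
        rw [Finset.card_image_of_injective _ hrinj, Finset.card_univ, Fintype.card_coe]
        exact hcard)
      let e : ↥s ↪ ↥(Finset.univ.image r) :=
        ⟨fun x => ⟨r x, Finset.mem_image_of_mem r (Finset.mem_univ x)⟩, fun x y hxy =>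
          hrinj (congrArg Subtype.val hxy)⟩
      have h2 := h1.comp_embedding e
      have h3 : (fun x : ↥s => (x : E d)) = (fun t : ↥(Finset.univ.image r) => f t) ∘ e := by
        funext x
        exact (hr x).symm
      rw [h3]
      exact h2
    obtain ⟨p, D, hD1, hD2, hD3⟩ := h N hNn
      (fun i => Finset.univ.image (fun z : (↥(C i)) × Fin (m i) => f ⟨i, z⟩)) hc1 hc2 hc3
    refine ⟨f, p, D, hf1, hinj, hD1, ?_, hD3⟩
    intro i
    have h1 := hD2 i
    rw [hc1] at h1
    exact h1
  choose f p D hf hinj hDsub hDcard hDsel using step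
  -- the sets of selected original points
  let S : ℕ → (∀ i : Fin (d + 1), Finset (↥(C i))) := fun k i =>
    Finset.univ.filter (fun x => ∃ j : Fin (m i), f k ⟨i, (x, j)⟩ ∈ D k i)
  -- an ultrafilter on the naturals
  let U : Ultrafilter ℕ := Filter.hyperfilter ℕ
  obtain ⟨S₀, hS₀⟩ : ∃ S₀, ∀ᶠ k in (U : Filter ℕ), S k = S₀ := by
    by_contra hno
    have h1 : ∀ S₀, ∀ᶠ k in (U : Filter ℕ), S k ≠ S₀ := fun S₀ =>
      Ultrafilter.eventually_not.mpr (fun hh => hno ⟨S₀, hh⟩)
    have h2 : ∀ᶠ k in (U : Filter ℕ), ∀ S₀, S k ≠ S₀ := Filter.eventually_all.mpr h1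
    obtain ⟨k, hk⟩ := h2.exists
    exact hk (S k) rfl
  -- cardinality bound
  have hcard : ∀ k i, c * ((C i).card : ℝ) ≤ ((S k i).card : ℝ) := by
    intro k i
    have h1 : (D k i).card ≤ (S k i).card * m i := by
      have hsub : D k i ⊆ ((S k i) ×ˢ (Finset.univ : Finset (Fin (m i)))).image
          (fun z => f k ⟨i, z⟩) := by
        intro x hx
        obtain ⟨z, _, rfl⟩ := Finset.mem_image.mp (hDsub k i hx)
        refine Finset.mem_image.mpr ⟨z, Finset.mem_product.mpr ⟨?_, Finset.mem_univ _⟩, rfl⟩
        exact Finset.mem_filter.mpr ⟨Finset.mem_univ _, z.2, hx⟩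
      calc (D k i).card ≤ _ := Finset.card_le_card hsub
        _ ≤ ((S k i) ×ˢ (Finset.univ : Finset (Fin (m i)))).card := Finset.card_image_le
        _ = (S k i).card * m i := by
          rw [Finset.card_product, Finset.card_univ, Fintype.card_fin]
    have h2 := hDcard k i
    have h3 : (N : ℝ) = (C i).card * m i := by exact_mod_cast (hmN i).symm
    have h4 : ((D k i).card : ℝ) ≤ (S k i).card * m i := by exact_mod_cast h1
    have h5 : (0 : ℝ) < m i := by exact_mod_cast hmpos i
    rw [h3] at h2
    have h6 : c * (C i).card * m i ≤ (S k i).card * m i := by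
      calc c * (C i).card * m i = c * ((C i).card * m i) := by ring
        _ ≤ _ := h2
        _ ≤ _ := h4
    exact le_of_mul_le_mul_right h6 h5
  -- closeness to the original simplices
  have hclose : ∀ (k : ℕ) (x : Fin (d + 1) → E d),
      (∀ i, ∃ y ∈ S k i, ((y : ↥(C i)) : E d) = x i) →
      infDist (p k) (convexHull ℝ (Set.range x)) ≤ 1 / ((k : ℝ) + 1) := by
    intro k x hx
    choose y hy hyx using hx
    have h1 : ∀ i, ∃ j : Fin (m i), f k ⟨i, (y i, j)⟩ ∈ D k i := fun i =>
      (Finset.mem_filter.mp (hy i)).2
    choose j hj using h1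
    have h2 := hDsel k (fun i => f k ⟨i, (y i, j i)⟩) hj
    have h3 : convexHull ℝ (Set.range fun i => f k ⟨i, (y i, j i)⟩) ⊆
        cthickening (1 / ((k : ℝ) + 1)) (convexHull ℝ (Set.range x)) := by
      apply convexHull_min
      · rintro _ ⟨i, rfl⟩
        apply mem_cthickening_of_dist_le _ (x i) _ _
          (subset_convexHull ℝ _ (Set.mem_range_self i))
        have := hf k ⟨i, (y i, j i)⟩
        rw [← hyx i]
        exact this.le
      · exact (convex_convexHull ℝ _).cthickening _
    have h4 := h3 h2
    exact ENNReal.toReal_le_of_le_ofReal (by positivity) h4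
  -- the case of a nonpositive constant
  rcases le_or_gt c 0 with hc | hc
  · refine ⟨0, fun _ => ∅, fun _ => Finset.empty_subset _, fun i => ?_, ?_⟩
    · have : (0 : ℝ) ≤ (C i).card := Nat.cast_nonneg _
      simpa using mul_nonpos_of_nonpos_of_nonneg hc this
    · intro x hx
      exact absurd (hx 0) (Finset.notMem_empty _)
  -- the limit point
  have hSne : ∀ k i, (S k i).Nonempty := by
    intro k i
    rw [← Finset.card_pos]
    have h1 := hcard k i
    have h2 : 0 < c * ((C i).card : ℝ) := mul_pos hc (by exact_mod_cast hpos i)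
    have h3 : (0 : ℝ) < ((S k i).card : ℝ) := lt_of_lt_of_le h2 h1
    exact_mod_cast h3
  set A : Set (E d) := ⋃ i, (C i : Set (E d)) with hA
  have hAfin : A.Finite := Set.finite_iUnion fun i => (C i).finite_toSet
  have hK : IsCompact (cthickening (1 : ℝ) (convexHull ℝ A)) :=
    (hAfin.isCompact_convexHull (𝕜 := ℝ)).cthickening
  have hpK : ∀ k, p k ∈ cthickening (1 : ℝ) (convexHull ℝ A) := by
    intro k
    have h1 : ∀ i, ∃ y : ↥(C i), y ∈ S k i := fun i => hSne k i
    choose y hy using h1
    have h2 := hclose k (fun i => (y i : E d)) (fun i => ⟨y i, hy i, rfl⟩)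
    have h3 : convexHull ℝ (Set.range fun i => (y i : E d)) ⊆ convexHull ℝ A := by
      apply convexHull_mono
      rintro _ ⟨i, rfl⟩
      exact Set.mem_iUnion.mpr ⟨i, (y i).2⟩
    have hne : (convexHull ℝ (Set.range fun i => (y i : E d))).Nonempty :=
      ⟨(y 0 : E d), subset_convexHull ℝ _ (Set.mem_range_self 0)⟩
    have h4 : infDist (p k) (convexHull ℝ A) ≤ 1 := by
      refine (infDist_le_infDist_of_subset h3 hne).trans (h2.trans ?_)
      rw [div_le_one (by positivity)]
      have : (0 : ℝ) ≤ k := Nat.cast_nonneg _
      linarith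
    rw [mem_cthickening_iff]
    rw [ENNReal.le_ofReal_iff_toReal_le (infEDist_ne_top (hne.mono h3)) zero_le_one]
    exact h4
  obtain ⟨q, _, hq⟩ := hK.ultrafilter_le_nhds (U.map p) (by
    rw [Filter.le_principal_iff]
    exact Filter.mem_map.mpr (Filter.univ_mem' hpK))
  have hq' : Filter.Tendsto p (U : Filter ℕ) (nhds q) := hq
  refine ⟨q, fun i => (S₀ i).image Subtype.val, ?_, ?_, ?_⟩
  · intro i x hx
    obtain ⟨y, _, rfl⟩ := Finset.mem_image.mp hx
    exact y.2
  · intro i
    obtain ⟨k, hk⟩ := hS₀.exists
    rw [Finset.card_image_of_injective _ Subtype.val_injective]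
    have := hcard k i
    rwa [hk] at this
  · intro x hx
    have h1 : ∀ i, ∃ y ∈ S₀ i, ((y : ↥(C i)) : E d) = x i := fun i => by
      obtain ⟨y, hy, hyx⟩ := Finset.mem_image.mp (hx i)
      exact ⟨y, hy, hyx⟩
    have h2 : ∀ᶠ k in (U : Filter ℕ),
        infDist (p k) (convexHull ℝ (Set.range x)) ≤ 1 / ((k : ℝ) + 1) := by
      filter_upwards [hS₀] with k hk
      apply hclose k x
      intro i
      rw [hk]
      exact h1 i
    have h3 : Filter.Tendsto (fun k => infDist (p k) (convexHull ℝ (Set.range x)))
        (U : Filter ℕ) (nhds (infDist q (convexHull ℝ (Set.range x)))) :=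
      ((continuous_infDist_pt _).tendsto q).comp hq'
    have h4 : Filter.Tendsto (fun k : ℕ => 1 / ((k : ℝ) + 1)) (U : Filter ℕ) (nhds 0) :=
      tendsto_one_div_add_atTop_nhds_zero_nat.mono_left Nat.hyperfilter_le_atTop
    have h5 := le_of_tendsto_of_tendsto h3 h4 h2
    have hne : (convexHull ℝ (Set.range x)).Nonempty :=
      ⟨x 0, subset_convexHull ℝ _ (Set.mem_range_self 0)⟩
    have hcl : IsClosed (convexHull ℝ (Set.range x)) :=
      (Set.finite_range x).isClosed_convexHull (𝕜 := ℝ)
    rw [hcl.mem_iff_infDist_zero hne]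
    exact le_antisymm h5 infDist_nonneg


end Q86.PA.Red
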