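import Pool.Agent.Q86.PA.Stm
import Pool.Agent.Q86.PA.Red

set_option autoImplicit false

namespace Q86.PA

open Finset

theorem sel (h1 : S_CNT) (h2 : S_FH) : S_SEL := by
  classical
  intro d
  obtain ⟨α, hα, h⟩ := h1 d
  refine ⟨α / (d + 1), by positivity, fun C hC => ?_⟩
  have h3 := h C hC
  have hne : (Fintype.piFinset C).Nonempty := Fintype.piFinset_nonempty.2 hC
  obtain ⟨q, hq⟩ := h2 d (Fin (d + 1) → E d) (Fintype.piFinset C)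
    (fun x => convexHull ℝ (Set.range x)) α hne
    (fun x => (Set.finite_range x).isClosed_convexHull (𝕜 := ℝ)) (fun x => convex_convexHull ℝ _)
    (by
      refine h3.trans (le_of_eq ?_)
      congr!)
  exact ⟨q, hq.trans (le_of_eq (by congr!))⟩

theorem equalSizes (h1 : S_CNT) (h2 : S_FH) (h3 : S_GPL) (h4 : S_AV) (h5 : S_AN) (h6 : S_BOX)
    (d : ℕ) (hd : 1 ≤ d) : ∃ c : ℝ, 0 < c ∧ Red.EqualSizes d c := by
  classical
  obtain ⟨β, hβ, hsel⟩ := sel h1 h2 d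
  obtain ⟨κ, n₁, hκ, hav⟩ := h4 d hd
  obtain ⟨c, n₂, hc, hbox⟩ := h6 (d + 1) κ β n₁ hκ hβ
  refine ⟨c, hc, max n₂ 1, ?_⟩
  intro n hn C hC _ hgp
  have hne : ∀ i, (C i).Nonempty := fun i => by
    rw [← Finset.card_pos, hC i]
    omega
  obtain ⟨q, hq⟩ := hsel C hne
  have hGP : GP {x : E d | ∃ i, x ∈ C i} := h3 d _ (fun s hs hcard => hgp s hs hcard)
  have hhom : ∀ Y : Fin (d + 1) → Finset (E d), (∀ i, Y i ⊆ C i) → (∀ i, n₁ ≤ (Y i).card) →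
      ∃ Z : Fin (d + 1) → Finset (E d), (∀ i, Z i ⊆ Y i) ∧
        (∀ i, κ * ((Y i).card : ℝ) ≤ ((Z i).card : ℝ)) ∧
        ((∀ x : Fin (d + 1) → E d, (∀ i, x i ∈ Z i) → InHull q x) ∨
          (∀ x : Fin (d + 1) → E d, (∀ i, x i ∈ Z i) → ¬ InHull q x)) := by
    intro Y hY hYn
    obtain ⟨A', hA1, hA2, hA3⟩ := hav _ hGP q Y hYn (fun i x hx => ⟨i, hY i hx⟩)
    exact ⟨A', hA1, hA2, h5 d q A' hA3⟩
  have hcard : ∀ i, n₂ ≤ (C i).card := fun i => by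
    rw [hC i]
    omega
  obtain ⟨D, hD1, hD2, hD3⟩ := hbox (E d) (fun x => InHull q x) C hhom hcard
    (hq.trans (le_of_eq (by congr!)))
  exact ⟨q, D, hD1, hD2, fun x hx => hD3 x hx⟩

theorem anySizes (h1 : S_CNT) (h2 : S_FH) (h3 : S_GPL) (h4 : S_AV) (h5 : S_AN) (h6 : S_BOX)
    (d : ℕ) (hd : 1 ≤ d) : ∃ c : ℝ, 0 < c ∧ Red.AnySizes d c := by
  obtain ⟨c, hc, h⟩ := equalSizes h1 h2 h3 h4 h5 h6 d hd
  exact ⟨c, hc, Red.anySizes_of_equalSizes hd h⟩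

end Q86.PA
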