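import Mathlib
import Pool.Agent.Helper954.Hopf.DoldDefs

/-!
# Project PA: homogeneous selection (Pach's theorem) for colour classes of arbitrary sizes

Statements of the lemmas.
-/

set_option autoImplicit false

namespace Q86.PA

open Pool.Agent.Helper954.Hopf.Dold

/-- Euclidean `d`-space. -/
abbrev E (d : ℕ) : Type := EuclideanSpace ℝ (Fin d)

/-- The point `q` lies in the convex hull of the points `x i`. -/
def InHull {d m : ℕ} (q : E d) (x : Fin m → E d) : Prop := q ∈ convexHull ℝ (Set.range x)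

/-- ZBU. Borsuk-Ulam for `ZMod p` and several coordinates. -/
def S_ZBU : Prop := ∀ (p : ℕ) [Fact p.Prime] (K : Type) [Fintype K] (M : ℕ),
  Fintype.card K * (p - 1) < M →
  ∀ z : K → VV p M → ZMod p → ℝ, (∀ k c, Continuous fun x => z k x c) →
    (∀ k x c, z k (sh x) (c + 1) = z k x c) →
    ∃ x ∈ JK p M, ∀ k c c', z k x c = z k x c'

/-- TV. The coloured Tverberg theorem (Vrecica-Zivaljevic) for primes, classes of size `2p-1`. -/
def S_TV : Prop := ∀ (p d : ℕ) [Fact p.Prime] (y : Fin (d + 1) → Fin (2 * p - 1) → E d),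
  ∃ s : ZMod p → Fin (d + 1) → Fin (2 * p - 1),
    (∀ i l l', s l i = s l' i → l = l') ∧
    ∃ q : E d, ∀ l, InHull q (fun i => y i (s l i))

/-- CNT. A positive fraction of the `(d+1)`-tuples of rainbow simplices have a common point. -/
def S_CNT : Prop := ∀ d : ℕ, ∃ α : ℝ, 0 < α ∧
  ∀ C : Fin (d + 1) → Finset (E d), (∀ i, (C i).Nonempty) → by
    classical
    exact α * ((Fintype.piFinset C).card : ℝ) ^ (d + 1) ≤
      (((Fintype.piFinset fun _ : Fin (d + 1) => Fintype.piFinset C).filter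
        fun τ => ∃ q : E d, ∀ k, InHull q (τ k)).card : ℝ)

/-- FH. Fractional Helly theorem for ordered tuples. -/
def S_FH : Prop := ∀ (d : ℕ) (X : Type) (S : Finset X) (K : X → Set (E d)) (α : ℝ),
  S.Nonempty → (∀ x, IsClosed (K x)) → (∀ x, Convex ℝ (K x)) → by
    classical
    exact α * (S.card : ℝ) ^ (d + 1) ≤
      (((Fintype.piFinset fun _ : Fin (d + 1) => S).filter
        fun τ => ∃ q : E d, ∀ k, q ∈ K (τ k)).card : ℝ) →
      ∃ q : E d, α / (d + 1) * (S.card : ℝ) ≤ ((S.filter fun x => q ∈ K x).card : ℝ)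

/-- SEL. There is a point in a positive fraction of the rainbow simplices. -/
def S_SEL : Prop := ∀ d : ℕ, ∃ β : ℝ, 0 < β ∧
  ∀ C : Fin (d + 1) → Finset (E d), (∀ i, (C i).Nonempty) → by
    classical
    exact ∃ q : E d, β * ((Fintype.piFinset C).card : ℝ) ≤
      (((Fintype.piFinset C).filter fun x => InHull q x).card : ℝ)

/-- CP. Centerpoint theorem. -/
def S_CP : Prop := ∀ (d : ℕ) (P : Finset (E d)), P.Nonempty → ∃ z : E d,
  ∀ f : E d →ₗ[ℝ] ℝ, by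
    classical
    exact P.card ≤ (d + 1) * (P.filter fun x => f z ≤ f x).card

/-- every hyperplane contains at most `d` points of `U` -/
def GP {d : ℕ} (U : Set (E d)) : Prop := ∀ f : E d →ₗ[ℝ] ℝ, f ≠ 0 → ∀ c : ℝ,
  ∀ s : Finset (E d), (∀ x ∈ s, x ∈ U ∧ f x = c) → s.card ≤ d

/-- GPL. General position in terms of affine independence gives `GP`. -/
def S_GPL : Prop := ∀ (d : ℕ) (U : Set (E d)),
  (∀ s : Finset (E d), (∀ x ∈ s, x ∈ U) → s.card ≤ d + 1 →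
      AffineIndependent ℝ (fun x : s => (x : E d))) → GP U

/-- SEP. Separating a point from large parts of `d` classes. -/
def S_SEP : Prop := ∀ (d : ℕ) (U : Set (E d)), 1 ≤ d → GP U →
  ∀ (q : E d) (A : Fin d → Finset (E d)), (∀ k, (A k).Nonempty) → (∀ k, ∀ x ∈ A k, x ∈ U) →
    ∃ (f : E d →ₗ[ℝ] ℝ) (A' : Fin d → Finset (E d)), (∀ k, A' k ⊆ A k) ∧
      (∀ k, (A k).card ≤ (d + 1) * ((A' k).card + d)) ∧ ∀ k, ∀ x ∈ A' k, f q < f x

/-- AV. Large parts of `d + 1` classes such that `q` avoids the hull of any `d` of them. -/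
def S_AV : Prop := ∀ d : ℕ, 1 ≤ d → ∃ (κ : ℝ) (n₁ : ℕ), 0 < κ ∧ ∀ U : Set (E d), GP U →
  ∀ (q : E d) (A : Fin (d + 1) → Finset (E d)), (∀ i, n₁ ≤ (A i).card) →
    (∀ i, ∀ x ∈ A i, x ∈ U) →
    ∃ A' : Fin (d + 1) → Finset (E d), (∀ i, A' i ⊆ A i) ∧
      (∀ i, κ * ((A i).card : ℝ) ≤ ((A' i).card : ℝ)) ∧
      ∀ j, q ∉ convexHull ℝ (⋃ i, ⋃ (_ : i ≠ j), (A' i : Set (E d)))

/-- AN. All or nothing. -/
def S_AN : Prop := ∀ (d : ℕ) (q : E d) (A : Fin (d + 1) → Finset (E d)),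
  (∀ j, q ∉ convexHull ℝ (⋃ i, ⋃ (_ : i ≠ j), (A i : Set (E d)))) →
  (∀ x : Fin (d + 1) → E d, (∀ i, x i ∈ A i) → InHull q x) ∨
  (∀ x : Fin (d + 1) → E d, (∀ i, x i ∈ A i) → ¬ InHull q x)

/-- BOX. From positive density to a complete box, for relations with the all-or-nothing
property. -/
def S_BOX : Prop := ∀ (m : ℕ) (κ β : ℝ) (n₁ : ℕ), 0 < κ → 0 < β → ∃ (c : ℝ) (n₂ : ℕ), 0 < c ∧
  ∀ (α : Type) (R : (Fin m → α) → Prop) (X : Fin m → Finset α),
    (∀ Y : Fin m → Finset α, (∀ i, Y i ⊆ X i) → (∀ i, n₁ ≤ (Y i).card) →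
      ∃ Z : Fin m → Finset α, (∀ i, Z i ⊆ Y i) ∧ (∀ i, κ * ((Y i).card : ℝ) ≤ ((Z i).card : ℝ)) ∧
        ((∀ x : Fin m → α, (∀ i, x i ∈ Z i) → R x) ∨
          (∀ x : Fin m → α, (∀ i, x i ∈ Z i) → ¬ R x))) →
    (∀ i, n₂ ≤ (X i).card) → (by
      classical
      exact β * ((Fintype.piFinset X).card : ℝ) ≤ (((Fintype.piFinset X).filter R).card : ℝ)) →
    ∃ D : Fin m → Finset α, (∀ i, D i ⊆ X i) ∧ (∀ i, c * ((X i).card : ℝ) ≤ ((D i).card : ℝ)) ∧
      ∀ x : Fin m → α, (∀ i, x i ∈ D i) → R x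

end Q86.PA
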