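import Pool.Agent.Q86.PA.Stm

/-!
The coloured Tverberg theorem for primes (classes of size `2p-1`), from the Borsuk-Ulam theorem
for the join.
-/

set_option autoImplicit false

namespace Q86.PA

open Finset Pool.Agent.Helper954.Hopf.Dold

/-- Extension of a partial injection. -/
theorem extend_inj {A B : Type} [Fintype A] [Fintype B] (hAB : Fintype.card A ≤ Fintype.card B)
    (P : A → B → Prop) (h1 : ∀ a b b', P a b → P a b' → b = b')
    (h2 : ∀ a a' b, P a b → P a' b → a = a') :
    ∃ f : A → B, Function.Injective f ∧ ∀ a b, P a b → f a = b := by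
  classical
  let g : {a // ∃ b, P a b} → B := fun a => a.2.choose
  have hg : ∀ a, P a.1 (g a) := fun a => a.2.choose_spec
  have hginj : Function.Injective g := by
    intro a a' h
    apply Subtype.ext
    apply h2 a.1 a'.1 (g a) (hg a)
    rw [h]
    exact hg a'
  have hc1 : Fintype.card {a // ¬ ∃ b, P a b} ≤ Fintype.card {b // b ∉ Set.range g} := by
    have e1 := Fintype.card_subtype_compl (fun a => ∃ b, P a b)
    have e2 := Fintype.card_subtype_compl (fun b => b ∈ Set.range g)
    have e3 : Fintype.card {b // b ∈ Set.range g} = Fintype.card {a // ∃ b, P a b} :=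
      Set.card_range_of_injective hginj
    rw [e1, e2, e3]
    omega
  obtain ⟨k⟩ := Function.Embedding.nonempty_of_card_le hc1
  refine ⟨fun a => if h : ∃ b, P a b then g ⟨a, h⟩ else (k ⟨a, h⟩ : B), ?_, ?_⟩
  · intro a a' haa
    simp only at haa
    by_cases ha : ∃ b, P a b
    · by_cases ha' : ∃ b, P a' b
      · rw [dif_pos ha, dif_pos ha'] at haa
        exact congrArg Subtype.val (hginj haa)
      · rw [dif_pos ha, dif_neg ha'] at haa
        exact absurd ⟨_, haa⟩ (k ⟨a', ha'⟩).2
    · by_cases ha' : ∃ b, P a' b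
      · rw [dif_neg ha, dif_pos ha'] at haa
        exact absurd ⟨_, haa.symm⟩ (k ⟨a, ha⟩).2
      · rw [dif_neg ha, dif_neg ha'] at haa
        exact congrArg Subtype.val (k.injective (Subtype.ext haa))
  · intro a b hab
    have ha : ∃ b, P a b := ⟨b, hab⟩
    simp only [dif_pos ha]
    exact h1 a _ _ (hg ⟨a, ha⟩) hab

theorem tv (h : S_ZBU) : S_TV := by
  classical
  intro p d hpf y
  have hp := (Fact.out : p.Prime)
  have hp2 : 2 ≤ p := hp.two_le
  have hp0 : (0 : ℝ) < p := by positivity
  obtain ⟨e⟩ : Nonempty (Fin ((2 * d + 2) * (p - 1) + 1) ↪ Fin (d + 1) × Fin (2 * p - 1)) := by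
    apply Function.Embedding.nonempty_of_card_le
    rw [Fintype.card_prod, Fintype.card_fin, Fintype.card_fin, Fintype.card_fin]
    obtain ⟨r, rfl⟩ : ∃ r, p = r + 1 := ⟨p - 1, by omega⟩
    have h1 : 2 * (r + 1) - 1 = 2 * r + 1 := by omega
    rw [h1, Nat.add_sub_cancel]
    nlinarith
  set M := (2 * d + 2) * (p - 1) + 1 with hM
  let z : Unit ⊕ (Fin d ⊕ Fin (d + 1)) → VV p M → ZMod p → ℝ := fun k x l =>
    match k with
    | Sum.inl _ => ∑ i, x i l
    | Sum.inr (Sum.inl c) => ∑ i, x i l * (y (e i).1 (e i).2) c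
    | Sum.inr (Sum.inr a) => ∑ i, ∑ j, if (e i).1 = a ∧ (e j).1 = a ∧ i ≠ j then x i l * x j l else 0
  have hsh : ∀ (x : VV p M) i l, sh x i (l + 1) = x i l := by
    intro x i l
    simp [sh]
  obtain ⟨x, ⟨hx0, hx1, hx2⟩, hall⟩ := h p (Unit ⊕ (Fin d ⊕ Fin (d + 1))) M
    (by
      simp only [Fintype.card_sum, Fintype.card_unit, Fintype.card_fin]
      rw [hM]
      have : 1 + (d + (d + 1)) = 2 * d + 2 := by ring
      rw [this]
      exact Nat.lt_succ_self _) z
    (by
      rintro (u | c | a) l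
      · show Continuous fun x : VV p M => ∑ i, x i l
        fun_prop
      · show Continuous fun x : VV p M => ∑ i, x i l * (y (e i).1 (e i).2) c
        fun_prop
      · show Continuous fun x : VV p M => ∑ i, ∑ j,
          if (e i).1 = a ∧ (e j).1 = a ∧ i ≠ j then x i l * x j l else 0
        refine continuous_finsetSum _ fun i _ => continuous_finsetSum _ fun j _ => ?_
        split_ifs
        · fun_prop
        · exact continuous_const)
    (by
      rintro (u | c | a) x l
      · simp only [z, hsh]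
      · simp only [z, hsh]
      · simp only [z, hsh])
  -- the total weights
  have hT : ∀ l, ∑ i, x i l = 1 / p := by
    intro l
    have e1 : ∑ l' : ZMod p, ∑ i, x i l' = 1 := by rw [Finset.sum_comm]; exact hx1
    have e2 : ∀ l' : ZMod p, ∑ i, x i l' = ∑ i, x i l := fun l' => hall (Sum.inl ()) l' l
    rw [Finset.sum_congr rfl fun l' _ => e2 l', Finset.sum_const, Finset.card_univ, ZMod.card,
      nsmul_eq_mul] at e1
    field_simp
    linarith
  -- supports are disjoint
  have hdisj : ∀ i l l', x i l ≠ 0 → x i l' ≠ 0 → l = l' := by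
    intro i l l' h1 h2
    by_contra hne
    rcases hx2 i l l' hne with h3 | h3
    · exact h1 h3
    · exact h2 h3
  have hG0 : ∀ a l i j, (e i).1 = a → (e j).1 = a → x i l ≠ 0 → x j l ≠ 0 → i = j := by
    intro a l i0 j0 hi0 hj0 hxi hxj
    by_contra hij
    have hpos : ∀ l', ∃ i j, (e i).1 = a ∧ (e j).1 = a ∧ i ≠ j ∧ x i l' ≠ 0 ∧ x j l' ≠ 0 := by
      intro l'
      by_contra hno
      push Not at hno
      have e1 : z (Sum.inr (Sum.inr a)) x l' = 0 := by
        show (∑ i, ∑ j, if (e i).1 = a ∧ (e j).1 = a ∧ i ≠ j then x i l' * x j l' else 0) = 0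
        refine Finset.sum_eq_zero fun i _ => Finset.sum_eq_zero fun j _ => ?_
        split_ifs with hc
        · by_cases h1 : x i l' = 0
          · rw [h1, zero_mul]
          · rw [hno i j hc.1 hc.2.1 hc.2.2 h1, mul_zero]
        · rfl
      have e2 : 0 < z (Sum.inr (Sum.inr a)) x l := by
        show 0 < (∑ i, ∑ j, if (e i).1 = a ∧ (e j).1 = a ∧ i ≠ j then x i l * x j l else 0)
        have hnn : ∀ i j, 0 ≤ (if (e i).1 = a ∧ (e j).1 = a ∧ i ≠ j then x i l * x j l else 0) := by
          intro i j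
          split_ifs
          · exact mul_nonneg (hx0 _ _) (hx0 _ _)
          · exact le_refl _
        have e3 : 0 < (if (e i0).1 = a ∧ (e j0).1 = a ∧ i0 ≠ j0 then x i0 l * x j0 l else 0) := by
          rw [if_pos ⟨hi0, hj0, hij⟩]
          exact mul_pos (lt_of_le_of_ne (hx0 _ _) (Ne.symm hxi)) (lt_of_le_of_ne (hx0 _ _) (Ne.symm hxj))
        have e4 : (if (e i0).1 = a ∧ (e j0).1 = a ∧ i0 ≠ j0 then x i0 l * x j0 l else 0) ≤
            ∑ j, (if (e i0).1 = a ∧ (e j).1 = a ∧ i0 ≠ j then x i0 l * x j l else 0) :=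
          Finset.single_le_sum
            (f := fun j => if (e i0).1 = a ∧ (e j).1 = a ∧ i0 ≠ j then x i0 l * x j l else 0)
            (fun j _ => hnn i0 j) (Finset.mem_univ j0)
        have e5 : (∑ j, (if (e i0).1 = a ∧ (e j).1 = a ∧ i0 ≠ j then x i0 l * x j l else 0)) ≤
            ∑ i, ∑ j, (if (e i).1 = a ∧ (e j).1 = a ∧ i ≠ j then x i l * x j l else 0) :=
          Finset.single_le_sum
            (f := fun i => ∑ j, if (e i).1 = a ∧ (e j).1 = a ∧ i ≠ j then x i l * x j l else 0)
            (fun i _ => Finset.sum_nonneg fun j _ => hnn i j) (Finset.mem_univ i0)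
        linarith
      have e3 := hall (Sum.inr (Sum.inr a)) l l'
      linarith
    choose I J hI hJ hIJ hxI hxJ using hpos
    let F : ZMod p × Bool → Fin (2 * p - 1) := fun q => if q.2 then (e (I q.1)).2 else (e (J q.1)).2
    have hcol : ∀ i j, (e i).1 = a → (e j).1 = a → (e i).2 = (e j).2 → i = j := by
      intro i j h1 h2 h3
      exact e.injective (Prod.ext (h1.trans h2.symm) h3)
    have hF : Function.Injective F := by
      rintro ⟨l1, b1⟩ ⟨l2, b2⟩ hF
      cases b1 <;> cases b2
      · have h1 := hcol _ _ (hJ l1) (hJ l2) (by simpa [F] using hF)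
        have h2 := hdisj (J l1) l1 l2 (hxJ l1) (by rw [h1]; exact hxJ l2)
        rw [h2]
      · have h1 := hcol _ _ (hJ l1) (hI l2) (by simpa [F] using hF)
        have h2 := hdisj (J l1) l1 l2 (hxJ l1) (by rw [h1]; exact hxI l2)
        subst h2
        exact absurd h1.symm (hIJ l1)
      · have h1 := hcol _ _ (hI l1) (hJ l2) (by simpa [F] using hF)
        have h2 := hdisj (I l1) l1 l2 (hxI l1) (by rw [h1]; exact hxJ l2)
        subst h2
        exact absurd h1 (hIJ l1)
      · have h1 := hcol _ _ (hI l1) (hI l2) (by simpa [F] using hF)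
        have h2 := hdisj (I l1) l1 l2 (hxI l1) (by rw [h1]; exact hxI l2)
        rw [h2]
    have := Fintype.card_le_of_injective F hF
    rw [Fintype.card_prod, ZMod.card, Fintype.card_bool, Fintype.card_fin] at this
    omega
  -- the injections
  have hext : ∀ a : Fin (d + 1), ∃ f : ZMod p → Fin (2 * p - 1), Function.Injective f ∧
      ∀ l b, (∃ i, (e i).1 = a ∧ (e i).2 = b ∧ x i l ≠ 0) → f l = b := by
    intro a
    apply extend_inj
    · rw [ZMod.card, Fintype.card_fin]
      omega
    · rintro l b b' ⟨i, h1, h2, h3⟩ ⟨i', h1', h2', h3'⟩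
      have := hG0 a l i i' h1 h1' h3 h3'
      rw [← h2, ← h2', this]
    · rintro l l' b ⟨i, h1, h2, h3⟩ ⟨i', h1', h2', h3'⟩
      have h4 : i = i' := e.injective (Prod.ext (h1.trans h1'.symm) (h2.trans h2'.symm))
      subst h4
      exact hdisj i l l' h3 h3'
  choose f hf1 hf2 using hext
  refine ⟨fun l a => f a l, fun a l l' hl => hf1 a hl, ?_⟩
  refine ⟨∑ i, ((p : ℝ) * x i 0) • y (e i).1 (e i).2, fun l => ?_⟩
  have hQ : (∑ i, ((p : ℝ) * x i 0) • y (e i).1 (e i).2) =
      ∑ i, ((p : ℝ) * x i l) • y (e i).1 (f (e i).1 l) := by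
    have e1 : (∑ i, ((p : ℝ) * x i l) • y (e i).1 (f (e i).1 l)) =
        ∑ i, ((p : ℝ) * x i l) • y (e i).1 (e i).2 := by
      refine Finset.sum_congr rfl fun i _ => ?_
      by_cases h0 : x i l = 0
      · rw [h0, mul_zero, zero_smul, zero_smul]
      · rw [hf2 (e i).1 l (e i).2 ⟨i, rfl, rfl, h0⟩]
    rw [e1]
    ext c
    have e2 := hall (Sum.inr (Sum.inl c)) 0 l
    have e3 : ∀ l' : ZMod p, (∑ i, ((p : ℝ) * x i l') • y (e i).1 (e i).2) c =
        p * ∑ i, x i l' * (y (e i).1 (e i).2) c := by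
      intro l'
      rw [Finset.mul_sum]
      simp only [WithLp.ofLp_sum, Finset.sum_apply, PiLp.smul_apply, smul_eq_mul]
      exact Finset.sum_congr rfl fun i _ => by ring
    rw [e3, e3]
    exact congrArg _ e2
  unfold InHull
  rw [hQ]
  apply (convex_convexHull ℝ _).sum_mem
  · intro i _
    exact mul_nonneg hp0.le (hx0 i l)
  · rw [← Finset.mul_sum, hT l]
    field_simp
  · intro i _
    exact subset_convexHull ℝ _ ⟨(e i).1, rfl⟩

end Q86.PA
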