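import Pool.Agent.Q86.PA.Stm
import Pool.Agent.Helper954.Hopf.D1c

/-!
A Borsuk-Ulam theorem for `ZMod p`-equivariant maps from the join of `M` copies of `ZMod p`,
`M > K (p - 1)`, to `(ℝ^p)^K` (proof after `Q151.Cookie.zbu`).
-/

set_option autoImplicit false

namespace Q86.PA

open Finset Filter Topology Pool.Agent.Helper954.Hopf.Dold

/-- strict separation of a set of coordinates -/
def sep {p : ℕ} (z : ZMod p → ℝ) (S : Finset (ZMod p)) : Prop := ∀ a ∈ S, ∀ b, b ∉ S → z b < z a

theorem sep_unique {p : ℕ} {z : ZMod p → ℝ} {S T : Finset (ZMod p)} (hS : sep z S) (hT : sep z T)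
    (h : S.card = T.card) : S = T := by
  by_contra hne
  have h1 : ¬ S ⊆ T := fun hsub => hne (Finset.eq_of_subset_of_card_le hsub h.ge)
  have h2 : ¬ T ⊆ S := fun hsub => hne (Finset.eq_of_subset_of_card_le hsub h.le).symm
  obtain ⟨a, ha, ha'⟩ := Finset.not_subset.1 h1
  obtain ⟨b, hb, hb'⟩ := Finset.not_subset.1 h2
  have e1 := hS a ha b hb'
  have e2 := hT b hb a ha'
  linarith

theorem zbu : S_ZBU := by
  classical
  intro p hpf K _ M hM z hz he
  have hp := (Fact.out : p.Prime)
  have hp2 : 2 ≤ p := hp.two_le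
  set O : K × Fin (p - 1) → Set (VV p M) := fun j => {x | ∃ S : Finset (ZMod p),
    S.card = (j.2 : ℕ) + 1 ∧ sep (z j.1 x) S} with hO
  set lab : K × Fin (p - 1) → VV p M → ZMod p := fun j x =>
    if h : ∃ S : Finset (ZMod p), S.card = (j.2 : ℕ) + 1 ∧ sep (z j.1 x) S then
      (∑ s ∈ h.choose, s) * (((j.2 : ℕ) + 1 : ℕ) : ZMod p)⁻¹ else 0 with hlab
  have lab_eq : ∀ (j : K × Fin (p - 1)) (x : VV p M) (S : Finset (ZMod p)),
      S.card = (j.2 : ℕ) + 1 → sep (z j.1 x) S →
      lab j x = (∑ s ∈ S, s) * (((j.2 : ℕ) + 1 : ℕ) : ZMod p)⁻¹ := by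
    intro j x S hS hsep
    have h : ∃ S : Finset (ZMod p), S.card = (j.2 : ℕ) + 1 ∧ sep (z j.1 x) S := ⟨S, hS, hsep⟩
    simp only [hlab]
    rw [dif_pos h]
    have : h.choose = S := sep_unique h.choose_spec.2 hsep (h.choose_spec.1.trans hS.symm)
    rw [this]
  have hopen : ∀ (k : K) (S : Finset (ZMod p)), IsOpen {x : VV p M | sep (z k x) S} := by
    intro k S
    have : {x : VV p M | sep (z k x) S} = ⋂ a ∈ S, ⋂ b ∈ (Finset.univ.filter fun b => b ∉ S),
        {x | z k x b < z k x a} := by
      ext x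
      simp only [sep, Set.mem_setOf_eq, Set.mem_iInter, Finset.mem_filter, Finset.mem_univ,
        true_and]
    rw [this]
    refine isOpen_biInter_finset fun a _ => isOpen_biInter_finset fun b _ => ?_
    exact isOpen_lt (hz k b) (hz k a)
  have hshift : ∀ (k : K) x (S : Finset (ZMod p)), sep (z k x) S →
      sep (z k (sh x)) (S.image (· + 1)) := by
    intro k x S h a ha b hb
    obtain ⟨a', ha', rfl⟩ := Finset.mem_image.1 ha
    have hb' : b - 1 ∉ S := by
      intro hc
      exact hb (Finset.mem_image.2 ⟨b - 1, hc, by ring⟩)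
    have := h a' ha' (b - 1) hb'
    rw [← he k x a', ← he k x (b - 1), sub_add_cancel] at this
    exact this
  have hcardim : ∀ S : Finset (ZMod p), (S.image (· + 1)).card = S.card := by
    intro S
    exact Finset.card_image_of_injective _ (add_left_injective 1)
  -- transport the index type to `Type`
  obtain ⟨x, hx, hxO⟩ := D1c.join_cover p M (J := K × Fin (p - 1))
    (by rw [Fintype.card_prod, Fintype.card_fin]; exact hM) O
    (by
      intro j
      have : O j = ⋃ S ∈ (Finset.univ.filter fun S : Finset (ZMod p) => S.card = (j.2 : ℕ) + 1),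
          {x | sep (z j.1 x) S} := by
        ext x
        simp only [hO, Set.mem_setOf_eq, Set.mem_iUnion, Finset.mem_filter, Finset.mem_univ,
          true_and, exists_prop]
      rw [this]
      exact isOpen_biUnion fun S _ => hopen j.1 S)
    lab
    (by
      rintro j x ⟨S, hS, hsep⟩
      have h1 : ∀ᶠ y in 𝓝 x, sep (z j.1 y) S := (hopen j.1 S).mem_nhds hsep
      filter_upwards [h1] with y hy
      rw [lab_eq j y S hS hy, lab_eq j x S hS hsep])
    (by
      rintro j x ⟨S, hS, hsep⟩
      exact ⟨S.image (· + 1), (hcardim S).trans hS, hshift j.1 x S hsep⟩)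
    (by
      rintro j x ⟨S, hS, hsep⟩
      rw [lab_eq j x S hS hsep, lab_eq j (sh x) _ ((hcardim S).trans hS) (hshift j.1 x S hsep)]
      rw [Finset.sum_image (fun a _ b _ h => add_left_injective 1 h), Finset.sum_add_distrib,
        Finset.sum_const, hS, nsmul_eq_mul, mul_one, add_mul]
      congr 1
      apply mul_inv_cancel₀
      intro h0
      rw [ZMod.natCast_eq_zero_iff] at h0
      have := Nat.le_of_dvd (by omega) h0
      have := j.2.isLt
      omega)
  refine ⟨x, hx, ?_⟩
  intro k
  suffices h : ∀ a b, ¬ z k x a < z k x b by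
    intro c c'
    exact le_antisymm (not_lt.1 (h c' c)) (not_lt.1 (h c c'))
  intro a b hab
  set S : Finset (ZMod p) := Finset.univ.filter fun c => z k x a < z k x c with hS
  have hbS : b ∈ S := Finset.mem_filter.2 ⟨Finset.mem_univ _, hab⟩
  have haS : a ∉ S := fun h => lt_irrefl _ (Finset.mem_filter.1 h).2
  have hpos : 0 < S.card := Finset.card_pos.2 ⟨b, hbS⟩
  have hlt : S.card < p := by
    have h1 : S.card < (Finset.univ : Finset (ZMod p)).card :=
      Finset.card_lt_card ⟨Finset.subset_univ _, fun h => haS (h (Finset.mem_univ a))⟩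
    rwa [Finset.card_univ, ZMod.card] at h1
  have hsep : sep (z k x) S := by
    intro s hs t ht
    have h1 := (Finset.mem_filter.1 hs).2
    have h2 : ¬ z k x a < z k x t := fun h => ht (Finset.mem_filter.2 ⟨Finset.mem_univ _, h⟩)
    exact lt_of_le_of_lt (not_lt.1 h2) h1
  exact hxO (k, ⟨S.card - 1, by omega⟩) ⟨S, by simp; omega, hsep⟩

end Q86.PA
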